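import Pool.Agent.Q189.CH.D
import Pool.Agent.H762R2.RtC
import Pool.Agent.Helper202.Univ

/-!
# Sinks of rational maps: images, discs, orbits in the plane
-/

set_option autoImplicit false

open Set Filter Topology
open scoped OnePoint

namespace Pool.Agent.Q189.CR

open Pool.Agent.H762R2.Rt Pool.Agent.Helper114.Herman Pool.Agent.Helper114.Konig

/-- A point whose image is attracted is attracted. -/
theorem sinks_of_image {X : Type*} [TopologicalSpace X] {g : X → X} (hg : Continuous g) {c : X}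
    (h : Sinks g (g c)) : Sinks g c := by
  obtain ⟨z, n, hn, hz, ⟨U, hU, hUt⟩, hc⟩ := h
  obtain ⟨m, rfl⟩ : ∃ m, n = m + 1 := ⟨n - 1, by omega⟩
  have key : ∀ w : X, Tendsto (fun k : ℕ => g^[(m + 1) * k] (g w)) atTop (𝓝 z) →
      Tendsto (fun k : ℕ => g^[(m + 1) * k] w) atTop (𝓝 (g^[m] z)) := by
    intro w hw
    rw [← tendsto_add_atTop_iff_nat 1]
    refine (((hg.iterate m).tendsto z).comp hw).congr fun k => ?_
    show g^[m] (g^[(m + 1) * k] (g w)) = g^[(m + 1) * (k + 1)] w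
    rw [← Function.iterate_add_apply, ← Function.iterate_succ_apply]
    have e : (m + (m + 1) * k).succ = (m + 1) * (k + 1) := by
      rw [Nat.succ_eq_add_one]; ring
    rw [e]
  refine ⟨g^[m] z, m + 1, hn, ?_, ⟨g ⁻¹' U, ?_, fun w hw => key w (hUt _ hw)⟩, key c hc⟩
  · rw [← Function.iterate_add_apply, add_comm, Function.iterate_add_apply, hz]
  · apply hg.continuousAt.preimage_mem_nhds
    rw [← Function.iterate_succ_apply' g, hz]
    exact hU

theorem sinks_of_iterate {X : Type*} [TopologicalSpace X] {g : X → X} (hg : Continuous g) {c : X}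
    (m : ℕ) (h : Sinks g (g^[m] c)) : Sinks g c := by
  induction m with
  | zero => exact h
  | succ m ih => rw [Function.iterate_succ_apply'] at h; exact ih (sinks_of_image hg h)

/-- A disc mapped into itself by a contraction which is an iterate of `f`
(after `Pool.Agent.TH864.ZO`). -/
theorem sinks_of_disc {f : OnePoint ℂ → OnePoint ℂ} {F : ℂ → ℂ} {v : ℂ} {R q : ℝ} {τ : ℕ}
    (hR : 0 < R) (hq0 : 0 ≤ q) (hq : q < 1) (hτ : 0 < τ)
    (hF : ∀ y : ℂ, ‖y - v‖ ≤ R → f^[τ] (y : OnePoint ℂ) = ((F y : ℂ) : OnePoint ℂ))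
    (hm : ∀ y : ℂ, ‖y - v‖ ≤ R → ‖F y - v‖ < R)
    (hl : ∀ y z : ℂ, ‖y - v‖ ≤ R → ‖z - v‖ ≤ R → ‖F y - F z‖ ≤ q * ‖y - z‖)
    {y : ℂ} (hy : ‖y - v‖ ≤ R) : Sinks f (y : OnePoint ℂ) := by
  set H : ℂ → ℂ := fun x => F (v + x) - v with hH
  have hmem : ∀ x : ℂ, ‖x‖ ≤ R → ‖(v + x) - v‖ ≤ R := by intro x hx; simpa using hx
  have hHm : ∀ x : ℂ, ‖x‖ ≤ R → ‖H x‖ < R := fun x hx => hm _ (hmem x hx)
  have hHl : ∀ x y : ℂ, ‖x‖ ≤ R → ‖y‖ ≤ R → ‖H x - H y‖ ≤ q * ‖x - y‖ := by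
    intro x y hx hy
    have h1 := hl _ _ (hmem x hx) (hmem y hy)
    simp only [hH]
    have e1 : F (v + x) - v - (F (v + y) - v) = F (v + x) - F (v + y) := by ring
    have e2 : v + x - (v + y) = x - y := by ring
    rw [e1]
    rwa [e2] at h1
  obtain ⟨p, hpr, hpfix, hpt⟩ := disc_contraction hR hq0 hq hHm hHl
  set ψ : ℂ → OnePoint ℂ := fun x => ((v + x : ℂ) : OnePoint ℂ) with hψ
  have hψc : Continuous ψ := OnePoint.continuous_coe.comp (continuous_const.add continuous_id)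
  have hψo : IsOpenMap ψ :=
    (OnePoint.isOpenEmbedding_coe (X := ℂ)).isOpenMap.comp (Homeomorph.addLeft v).isOpenMap
  have hg : ∀ x : ℂ, ‖x‖ ≤ R → f^[τ] (ψ x) = ψ (H x) := by
    intro x hx
    simp only [hψ, hH]
    rw [hF _ (hmem x hx)]
    congr 1
    ring
  have hHk : ∀ k : ℕ, ∀ y : ℂ, ‖y‖ ≤ R → ‖H^[k] y‖ ≤ R := by
    intro k y hy
    induction k with
    | zero => simpa using hy
    | succ k ih => rw [Function.iterate_succ_apply']; exact (hHm _ ih).le
  have hgk : ∀ k : ℕ, ∀ y : ℂ, ‖y‖ ≤ R → f^[τ * k] (ψ y) = ψ (H^[k] y) := by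
    intro k y hy
    induction k with
    | zero => simp
    | succ k ih =>
      rw [show τ * (k + 1) = τ + τ * k by ring, Function.iterate_add_apply, ih,
        hg _ (hHk k y hy), Function.iterate_succ_apply']
  have hlim : ∀ y : ℂ, ‖y‖ ≤ R → Tendsto (fun k : ℕ => f^[τ * k] (ψ y)) atTop (𝓝 (ψ p)) := by
    intro y hy
    have h1 : Tendsto (fun k : ℕ => ψ (H^[k] y)) atTop (𝓝 (ψ p)) :=
      (hψc.tendsto p).comp (hpt y hy)
    refine h1.congr fun k => (hgk k y hy).symm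
  have hyy : (y : OnePoint ℂ) = ψ (y - v) := by simp [hψ]
  refine ⟨ψ p, τ, hτ, ?_, ⟨ψ '' Metric.ball 0 R, ?_, ?_⟩, ?_⟩
  · rw [hg p hpr.le, hpfix]
  · exact (hψo _ Metric.isOpen_ball).mem_nhds ⟨p, by simpa using hpr, rfl⟩
  · rintro w ⟨y, hy, rfl⟩
    exact hlim y (by simpa using (Metric.mem_ball.1 hy).le)
  · rw [hyy]
    exact hlim _ hy

/-- `S` describes `f` near `x`, with derivative `lam`. -/
def Good (f : OnePoint ℂ → OnePoint ℂ) (S : ℂ → ℂ) (x lam : ℂ) : Prop :=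
  HasStrictDerivAt S lam x ∧ ∀ᶠ y : ℂ in 𝓝 x, f (y : OnePoint ℂ) = ((S y : ℂ) : OnePoint ℂ)

theorem iter_good {f : OnePoint ℂ → OnePoint ℂ} {S : ℂ → ℂ} {x : ℂ} {lam : ℕ → ℂ}
    (h : ∀ i, Good f S (S^[i] x) (lam i)) (m : ℕ) :
    Good f^[m] S^[m] x (∏ i ∈ Finset.range m, lam i) := by
  induction m with
  | zero =>
    simp only [Function.iterate_zero, Finset.range_zero, Finset.prod_empty]
    exact ⟨hasStrictDerivAt_id x, Eventually.of_forall fun y => rfl⟩
  | succ m ih =>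
    obtain ⟨h1, h2⟩ := ih
    refine ⟨?_, ?_⟩
    · rw [Finset.prod_range_succ, mul_comm, Function.iterate_succ']
      exact (h m).1.comp x h1
    · have h3 : Tendsto S^[m] (𝓝 x) (𝓝 (S^[m] x)) := h1.hasDerivAt.continuousAt
      filter_upwards [h2, h3.eventually (h m).2] with y hy hy'
      rw [Function.iterate_succ_apply', hy, Function.iterate_succ_apply', hy']

theorem good_orbit {f : OnePoint ℂ → OnePoint ℂ} {S : ℂ → ℂ} {x : ℂ} {lam : ℕ → ℂ}
    (h : ∀ i, Good f S (S^[i] x) (lam i)) (m : ℕ) :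
    f^[m] (x : OnePoint ℂ) = ((S^[m] x : ℂ) : OnePoint ℂ) :=
  (iter_good h m).2.self_of_nhds

/-- A finite orbit with infinitely many critical points. -/
theorem sinks_super {f : OnePoint ℂ → OnePoint ℂ} (hf : Continuous f) {S : ℂ → ℂ} {x : ℂ}
    {lam : ℕ → ℂ} (h : ∀ i, Good f S (S^[i] x) (lam i)) {X : Set ℂ} (hX : X.Finite)
    (h1 : ∀ j, S^[j] x ∈ X) (h2 : ∀ J, ∃ j, J ≤ j ∧ lam j = 0) : Sinks f (x : OnePoint ℂ) := by
  obtain ⟨a, p, hp, -, hrep⟩ := CH.exists_repeat (T := S) hX (v := x) (fun i _ => h1 i)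
  obtain ⟨j, hj, hj0⟩ := h2 a
  obtain ⟨i, rfl⟩ := Nat.exists_eq_add_of_le hj
  set y := S^[a + i] x with hy
  have hyp : S^[p] y = y := by
    have h3 : Function.IsPeriodicPt S p (S^[a] x) := hrep
    have h4 := h3.apply_iterate i
    rw [hy, add_comm a, Function.iterate_add_apply]
    exact h4
  have hg : ∀ k, Good f S (S^[k] y) (lam (k + (a + i))) := by
    intro k
    rw [hy, ← Function.iterate_add_apply]
    exact h _
  have hlam0 : ∏ k ∈ Finset.range p, lam (k + (a + i)) = 0 :=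
    Finset.prod_eq_zero (Finset.mem_range.2 hp) (by rw [zero_add]; exact hj0)
  have hG := iter_good hg p
  rw [hlam0] at hG
  -- a small disc
  have hst := hG.1.hasStrictFDerivAt.isLittleO.def (c := 1 / 2) (by norm_num)
  obtain ⟨U, hU, hUl⟩ := hst.exists_mem
  rw [nhds_prod_eq] at hU
  obtain ⟨V, hV, hVV⟩ := mem_prod_self_iff.1 hU
  obtain ⟨R, hR, hball⟩ := Metric.mem_nhds_iff.1 (inter_mem hV hG.2)
  have hsub : ∀ z : ℂ, ‖z - y‖ ≤ R / 2 → z ∈ V ∧ f^[p] (z : OnePoint ℂ) = ((S^[p] z : ℂ) :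
      OnePoint ℂ) := by
    intro z hz
    exact hball (by rw [Metric.mem_ball, dist_eq_norm]; linarith)
  have hlip : ∀ u w : ℂ, ‖u - y‖ ≤ R / 2 → ‖w - y‖ ≤ R / 2 →
      ‖S^[p] u - S^[p] w‖ ≤ 1 / 2 * ‖u - w‖ := by
    intro u w hu hw
    have h5 := hUl (u, w) (hVV (mk_mem_prod (hsub u hu).1 (hsub w hw).1))
    simpa using h5
  have hs : Sinks f (y : OnePoint ℂ) := by
    refine sinks_of_disc (F := S^[p]) (v := y) (R := R / 2) (q := 1 / 2) (τ := p) (by positivity)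
      (by norm_num) (by norm_num) hp (fun z hz => (hsub z hz).2) ?_ hlip (by simp; positivity)
    intro z hz
    have h6 := hlip z y hz (by simp; positivity)
    rw [hyp] at h6
    have : 0 < R / 2 := by positivity
    linarith
  apply sinks_of_iterate hf (a + i)
  rw [good_orbit h]
  exact hs

/-- Points with a finite orbit along which the map is expanding are not attracted. -/
theorem not_sinks {f : OnePoint ℂ → OnePoint ℂ} {S : ℂ → ℂ} {v : ℂ} {lam : ℕ → ℂ}
    (hfib : ∀ w, (f ⁻¹' {w}).Finite)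
    (hg : ∀ i, Good f S (S^[i] v) (lam i)) (hex : ∀ i, 1 < ‖lam i‖)
    {X : Set ℂ} (hX : X.Finite) (h1 : ∀ j, S^[j] v ∈ X) : ¬ Sinks f (v : OnePoint ℂ) := by
  rintro ⟨z, m, hm, hz, ⟨U, hU, hUt⟩, hc⟩
  have horb : ∀ k, f^[k] (v : OnePoint ℂ) = ((S^[k] v : ℂ) : OnePoint ℂ) := good_orbit hg
  have hfin : (Set.range fun i => S^[i] v).Finite :=
    hX.subset (by rintro _ ⟨i, rfl⟩; exact h1 i)
  have hcl : IsClosed ((fun x : ℂ => (x : OnePoint ℂ)) '' (Set.range fun i => S^[i] v)) :=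
    (hfin.image _).isClosed
  have hzmem : z ∈ (fun x : ℂ => (x : OnePoint ℂ)) '' (Set.range fun i => S^[i] v) := by
    refine hcl.mem_of_tendsto hc (Eventually.of_forall fun k => ?_)
    rw [horb]
    exact ⟨_, ⟨_, rfl⟩, rfl⟩
  obtain ⟨x, ⟨j, rfl⟩, rfl⟩ := hzmem
  simp only at *
  set x := S^[j] v with hx
  have hg' : ∀ i, Good f S (S^[i] x) (lam (i + j)) := by
    intro i
    rw [hx, ← Function.iterate_add_apply]
    exact hg _
  have h0 := iter_good hg' m
  set μ := ∏ i ∈ Finset.range m, lam (i + j) with hμ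
  have hlam : 1 < ‖μ‖ := by
    rw [hμ, norm_prod]
    obtain ⟨m', rfl⟩ : ∃ m', m = m' + 1 := ⟨m - 1, by omega⟩
    rw [Finset.prod_range_succ]
    have h2 : 1 ≤ ∏ i ∈ Finset.range m', ‖lam (i + j)‖ :=
      Finset.one_le_prod fun i _ => (hex _).le
    have h3 := hex (m' + j)
    nlinarith
  have hGx : S^[m] x = x := by
    have h4 := h0.2.self_of_nhds
    rw [hz, OnePoint.coe_eq_coe] at h4
    exact h4.symm
  set q : ℝ := (1 + ‖μ‖) / 2 with hq
  have hq1 : 1 < q := by rw [hq]; linarith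
  have hexp : ∀ᶠ y in 𝓝 x, q * ‖y - x‖ ≤ ‖S^[m] y - x‖ := by
    have h5 := (hasDerivAt_iff_isLittleO.1 h0.1.hasDerivAt).def (c := (‖μ‖ - 1) / 2) (by linarith)
    filter_upwards [h5] with y hy
    rw [hGx, smul_eq_mul] at hy
    have h6 : ‖(y - x) * μ‖ ≤ ‖S^[m] y - x‖ + ‖S^[m] y - x - (y - x) * μ‖ := by
      have := norm_sub_norm_le ((y - x) * μ) (S^[m] y - x)
      rw [norm_sub_rev ((y - x) * μ)] at this
      linarith
    rw [norm_mul] at h6
    rw [hq]
    nlinarith [norm_nonneg (y - x)]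
  obtain ⟨δ, hδ, hball⟩ := Metric.eventually_nhds_iff.1 (hexp.and h0.2)
  have hmap : ∀ y : ℂ, (y : OnePoint ℂ) ∈ U → ∃ k, f^[k] (y : OnePoint ℂ) = (x : OnePoint ℂ) := by
    intro y hy
    have h7 := hUt _ hy
    have h8 : (fun t : ℂ => (t : OnePoint ℂ)) '' Metric.ball x δ ∈ 𝓝 (x : OnePoint ℂ) :=
      (OnePoint.isOpenEmbedding_coe (X := ℂ)).isOpenMap.image_mem_nhds (Metric.ball_mem_nhds x hδ)
    obtain ⟨k₀, hk₀⟩ := eventually_atTop.1 (h7.eventually h8)
    choose! t ht1 ht2 using hk₀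
    have hstep : ∀ k, k₀ ≤ k → t (k + 1) = S^[m] (t k) := by
      intro k hk
      have h9 := ht2 (k + 1) (by omega)
      simp only at h9
      rw [show m * (k + 1) = m + m * k by ring, Function.iterate_add_apply, ← ht2 k hk,
        (hball (Metric.mem_ball.1 (ht1 k hk))).2, OnePoint.coe_eq_coe] at h9
      exact h9
    have hgrow : ∀ i, q ^ i * ‖t k₀ - x‖ ≤ ‖t (k₀ + i) - x‖ := by
      intro i
      induction i with
      | zero => simp
      | succ i ih =>
        rw [← add_assoc, hstep (k₀ + i) (by omega)]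
        refine le_trans ?_ (hball (Metric.mem_ball.1 (ht1 (k₀ + i) (by omega)))).1
        rw [pow_succ]
        nlinarith
    have hzero : ‖t k₀ - x‖ = 0 := by
      by_contra hne
      have hpos : 0 < ‖t k₀ - x‖ := lt_of_le_of_ne (norm_nonneg _) (Ne.symm hne)
      obtain ⟨i, hi⟩ := pow_unbounded_of_one_lt (δ / ‖t k₀ - x‖) hq1
      rw [div_lt_iff₀ hpos] at hi
      have h10 := hgrow i
      have h11 := ht1 (k₀ + i) (by omega)
      rw [Metric.mem_ball, dist_eq_norm] at h11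
      linarith
    refine ⟨m * k₀, ?_⟩
    rw [← ht2 k₀ le_rfl]
    simp only
    rw [norm_eq_zero, sub_eq_zero] at hzero
    rw [hzero]
  have hfibk : ∀ k, (f^[k] ⁻¹' {(x : OnePoint ℂ)}).Finite := by
    intro k
    induction k with
    | zero => simp
    | succ k ih =>
      rw [Function.iterate_succ, Set.preimage_comp]
      exact ih.preimage' fun b _ => hfib b
  have hcount : {y : ℂ | (y : OnePoint ℂ) ∈ U}.Countable := by
    have h12 : {y : ℂ | (y : OnePoint ℂ) ∈ U} ⊆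
        ⋃ k, (fun y : ℂ => (y : OnePoint ℂ)) ⁻¹' (f^[k] ⁻¹' {(x : OnePoint ℂ)}) := by
      intro y hy
      obtain ⟨k, hk⟩ := hmap y hy
      exact Set.mem_iUnion.2 ⟨k, hk⟩
    refine (Set.countable_iUnion fun k => ?_).mono h12
    exact ((hfibk k).preimage (OnePoint.coe_injective.injOn)).countable
  have hnhds : {y : ℂ | (y : OnePoint ℂ) ∈ U} ∈ 𝓝 x :=
    (OnePoint.continuous_coe (X := ℂ)).continuousAt.preimage_mem_nhds hU
  obtain ⟨y, hy1, hy2⟩ := (hcount.dense_compl ℝ).inter_nhds_nonempty hnhds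
  exact hy1 hy2

end Pool.Agent.Q189.CR
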