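import Pool.Agent.Q189.CR.A

/-!
# The maps `R ∘ T_n` on the sphere: the region off the segment is attracted
-/

set_option autoImplicit false

open Set Filter Topology Polynomial
open scoped OnePoint

namespace Pool.Agent.Q189.CR

open Pool.Agent.H762R2.Rt Pool.Agent.Helper114.Herman Pool.Agent.Helper114.Konig
open Pool.Agent.Q189.CH (tn Seg Sp SegS)

variable {P Q : ℂ[X]} {n : ℕ} {g : OnePoint ℂ → OnePoint ℂ}

/-- `T_n` on the sphere. -/
noncomputable def tau (n : ℕ) : OnePoint ℂ → OnePoint ℂ := OnePoint.map (tn n)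

theorem continuous_tn (n : ℕ) : Continuous (tn n) := (Chebyshev.T ℂ n).continuous

theorem tn_surj (hn : 1 ≤ n) (y : ℂ) : ∃ x, tn n x = y := by
  obtain ⟨θ, rfl⟩ := Complex.cos_surjective y
  refine ⟨Complex.cos (θ / n), ?_⟩
  have hn0 : (n : ℂ) ≠ 0 := by exact_mod_cast (by omega : n ≠ 0)
  rw [CH.tn_cos, mul_div_cancel₀ _ hn0]

theorem continuous_tau (hn : 2 ≤ n) : Continuous (tau n) := by
  apply OnePoint.continuous_map (continuous_tn n)
  rw [coclosedCompact_eq_cocompact, ← Metric.cobounded_eq_cocompact]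
  rw [← tendsto_norm_atTop_iff_cobounded]
  have h1 : Tendsto (fun x : ℂ => (‖x‖ ^ 2 - 1) / 2) (Bornology.cobounded ℂ) atTop := by
    have h2 : Tendsto (fun t : ℝ => (t ^ 2 - 1) / 2) atTop atTop := by
      refine Tendsto.atTop_div_const two_pos ?_
      exact tendsto_atTop_add_const_right _ _ (tendsto_pow_atTop two_ne_zero)
    exact h2.comp tendsto_norm_cobounded_atTop
  refine tendsto_atTop_mono (fun x => ?_) h1
  have := CH.tn_far hn x
  linarith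

/-- The map `R ∘ T_n` on the sphere. -/
noncomputable def fm (g : OnePoint ℂ → OnePoint ℂ) (n : ℕ) : OnePoint ℂ → OnePoint ℂ :=
  fun x => g (tau n x)

theorem fm_infty (g : OnePoint ℂ → OnePoint ℂ) (n : ℕ) : fm g n ∞ = g ∞ := rfl

theorem fm_coe (g : OnePoint ℂ → OnePoint ℂ) (n : ℕ) (z : ℂ) :
    fm g n (z : OnePoint ℂ) = g ((tn n z : ℂ) : OnePoint ℂ) := rfl

theorem comp_ne (hn : 1 ≤ n) (hQ : Q ≠ 0) : Q.comp (Chebyshev.T ℂ n) ≠ 0 := by
  intro h
  apply hQ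
  apply Polynomial.funext
  intro y
  obtain ⟨x, rfl⟩ := tn_surj hn y
  have := congrArg (eval x) h
  rw [eval_comp] at this
  rw [eval_zero] at this ⊢
  exact this

theorem isRat_fm (hn : 2 ≤ n) (hg : IsRat g P Q) :
    IsRat (fm g n) (P.comp (Chebyshev.T ℂ n)) (Q.comp (Chebyshev.T ℂ n)) := by
  refine ⟨hg.cont.comp (continuous_tau hn), ?_, comp_ne (by omega) hg.ne, ?_⟩
  · exact hg.cop.map (compRingHom (Chebyshev.T ℂ n))
  · intro z hz
    rw [eval_comp] at hz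
    have hz' : Q.eval (tn n z) ≠ 0 := hz
    rw [fm_coe, hg.eval _ hz', eval_comp, eval_comp]
    rfl

theorem g_pole (hg : IsRat g P Q) (hD : 0 < max P.natDegree Q.natDegree) {y : ℂ}
    (hy : Q.eval y = 0) : g (y : OnePoint ℂ) = ∞ := by
  have h := rat_formula hg rfl hD (u := y) (v := 1) (Or.inr one_ne_zero)
  rw [pr_one, hom_one_right, hom_one_right] at h
  rw [h]
  have h2 : pol Q.coeff (max P.natDegree Q.natDegree) y = Q.eval y := by
    rw [← hom_one_right, hom_ne (le_max_right _ _) one_ne_zero]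
    simp
  rw [h2, hy, pr_zero]

/-- The map in the plane (junk value `0` at the poles). -/
noncomputable def stp (P Q : ℂ[X]) (n : ℕ) (z : ℂ) : ℂ := P.eval (tn n z) / Q.eval (tn n z)

theorem fm_stp (hg : IsRat g P Q) {z : ℂ} (hz : Q.eval (tn n z) ≠ 0) :
    fm g n (z : OnePoint ℂ) = ((stp P Q n z : ℂ) : OnePoint ℂ) := by
  rw [fm_coe, hg.eval _ hz]
  rfl

theorem tn_hasStrictDerivAt (n : ℕ) (x : ℂ) :
    HasStrictDerivAt (tn n) ((derivative (Chebyshev.T ℂ n)).eval x) x :=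
  (Chebyshev.T ℂ n).hasStrictDerivAt x

theorem stp_deriv {x : ℂ} (hx : Q.eval (tn n x) ≠ 0) : HasStrictDerivAt (stp P Q n)
    ((wro P Q).eval (tn n x) / (Q.eval (tn n x)) ^ 2 * (derivative (Chebyshev.T ℂ n)).eval x) x := by
  have h1 := tn_hasStrictDerivAt n x
  have h2 : HasStrictDerivAt (fun x => P.eval (tn n x))
    ((derivative P).eval (tn n x) * (derivative (Chebyshev.T ℂ n)).eval x) x :=
    HasStrictDerivAt.comp (h₂ := fun y => P.eval y) x (P.hasStrictDerivAt (tn n x)) h1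
  have h3 : HasStrictDerivAt (fun x => Q.eval (tn n x))
    ((derivative Q).eval (tn n x) * (derivative (Chebyshev.T ℂ n)).eval x) x :=
    HasStrictDerivAt.comp (h₂ := fun y => Q.eval y) x (Q.hasStrictDerivAt (tn n x)) h1
  have h4 := h2.div h3 hx
  refine h4.congr_deriv ?_
  simp only [wro, eval_sub, eval_mul]
  field_simp

theorem good_stp (hg : IsRat g P Q) {x : ℂ} (hx : Q.eval (tn n x) ≠ 0) :
    Good (fm g n) (stp P Q n) x ((wro P Q).eval (tn n x) / (Q.eval (tn n x)) ^ 2 *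
      (derivative (Chebyshev.T ℂ n)).eval x) := by
  refine ⟨stp_deriv hx, ?_⟩
  have h : Continuous fun y : ℂ => Q.eval (tn n y) := Q.continuous.comp (continuous_tn n)
  filter_upwards [h.continuousAt.eventually_ne hx] with y hy
  exact fm_stp hg hy

/-- Upper bound of a polynomial. -/
theorem poly_le (S : ℂ[X]) : ∃ b : ℝ, 0 < b ∧ ∀ y : ℂ, 1 ≤ ‖y‖ →
    ‖S.eval y‖ ≤ b * ‖y‖ ^ S.natDegree := by
  refine ⟨∑ k ∈ Finset.range (S.natDegree + 1), ‖S.coeff k‖ + 1, by positivity, fun y hy => ?_⟩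
  rw [eval_eq_sum_range]
  refine (norm_sum_le _ _).trans ?_
  rw [add_mul, Finset.sum_mul]
  have h1 : ∑ k ∈ Finset.range (S.natDegree + 1), ‖S.coeff k * y ^ k‖ ≤
      ∑ k ∈ Finset.range (S.natDegree + 1), ‖S.coeff k‖ * ‖y‖ ^ S.natDegree := by
    apply Finset.sum_le_sum
    intro k hk
    rw [norm_mul, norm_pow]
    rw [Finset.mem_range] at hk
    gcongr
    omega
  have h2 : 0 ≤ 1 * ‖y‖ ^ S.natDegree := by positivity
  linarith

/-- Lower bound of a nonzero polynomial. -/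
theorem poly_ge {S : ℂ[X]} (hS : S ≠ 0) : ∃ a R : ℝ, 0 < a ∧ 1 ≤ R ∧ ∀ y : ℂ, R ≤ ‖y‖ →
    a * ‖y‖ ^ S.natDegree ≤ ‖S.eval y‖ := by
  set c := S.leadingCoeff with hc
  have hc0 : 0 < ‖c‖ := norm_pos_iff.2 (leadingCoeff_ne_zero.2 hS)
  rcases Nat.eq_zero_or_pos S.natDegree with h0 | h0
  · refine ⟨‖c‖, 1, hc0, le_rfl, fun y _ => ?_⟩
    rw [h0, pow_zero, mul_one]
    rw [eq_C_of_natDegree_eq_zero h0, eval_C, hc, leadingCoeff, h0]
  · obtain ⟨b, hb, hE⟩ := poly_le S.eraseLead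
    refine ⟨‖c‖ / 2, max 1 (2 * b / ‖c‖), by positivity, le_max_left _ _, fun y hy => ?_⟩
    have hy1 : 1 ≤ ‖y‖ := (le_max_left _ _).trans hy
    have hy2 : 2 * b / ‖c‖ ≤ ‖y‖ := (le_max_right _ _).trans hy
    rw [div_le_iff₀ hc0] at hy2
    have h1 : S.eval y = S.eraseLead.eval y + c * y ^ S.natDegree := by
      have h := congrArg (eval y) S.eraseLead_add_C_mul_X_pow
      rw [eval_add, eval_mul, eval_C, eval_pow, eval_X] at h
      exact h.symm
    have h2 := hE y hy1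
    have h3 : ‖y‖ ^ S.eraseLead.natDegree ≤ ‖y‖ ^ (S.natDegree - 1) := by
      apply pow_le_pow_right₀ hy1
      exact eraseLead_natDegree_le S
    have h4 : ‖y‖ ^ S.natDegree = ‖y‖ ^ (S.natDegree - 1) * ‖y‖ := by
      rw [← pow_succ]
      congr 1
      omega
    have h5 : ‖c * y ^ S.natDegree‖ ≤ ‖S.eval y‖ + ‖S.eraseLead.eval y‖ := by
      rw [h1]
      have := norm_sub_le (S.eraseLead.eval y + c * y ^ S.natDegree) (S.eraseLead.eval y)
      simpa using this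
    rw [norm_mul, norm_pow] at h5
    have h6 : 0 < ‖y‖ ^ (S.natDegree - 1) := by positivity
    have h7 : b * ‖y‖ ^ S.eraseLead.natDegree ≤ b * ‖y‖ ^ (S.natDegree - 1) := by gcongr
    have h8 : b * ‖y‖ ^ (S.natDegree - 1) ≤ ‖c‖ / 2 * ‖y‖ ^ S.natDegree := by
      rw [h4]
      nlinarith
    linarith

/-- Attraction by infinity. -/
theorem attr_infty (hg : IsRat g P Q) (hdeg : Q.natDegree < P.natDegree) :
    ∃ C : ℝ, 0 < C ∧ ∀ n, 2 ≤ n → Sinks (fm g n) ∞ ∧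
      ∀ z : ℂ, (∀ t : ℝ, |t| ≤ 1 → C / n < ‖z - t‖) → Sinks (fm g n) (z : OnePoint ℂ) := by
  have hP : P ≠ 0 := by rintro rfl; simp at hdeg
  obtain ⟨a, R₁, ha, hR₁, hPge⟩ := poly_ge hP
  obtain ⟨q, R₂, hq, hR₂, hQge⟩ := poly_ge hg.ne
  obtain ⟨b, hb, hQle⟩ := poly_le Q
  set κ := a / b with hκ
  have hκ0 : 0 < κ := by positivity
  set R₀ := max R₁ R₂ with hR₀
  have hR₀1 : 1 ≤ R₀ := hR₁.trans (le_max_left _ _)
  have hgr : ∀ y : ℂ, R₀ ≤ ‖y‖ → Q.eval y ≠ 0 ∧ κ * ‖y‖ ≤ ‖P.eval y / Q.eval y‖ := by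
    intro y hy
    have hy1 : 1 ≤ ‖y‖ := hR₀1.trans hy
    have hQ0 : Q.eval y ≠ 0 := by
      have h1 := hQge y ((le_max_right _ _).trans hy)
      have h2 : 0 < q * ‖y‖ ^ Q.natDegree := by positivity
      exact norm_pos_iff.1 (h2.trans_le h1)
    refine ⟨hQ0, ?_⟩
    rw [norm_div, le_div_iff₀ (norm_pos_iff.2 hQ0)]
    have h1 := hPge y ((le_max_left _ _).trans hy)
    have h2 := hQle y hy1
    have h3 : ‖y‖ * ‖y‖ ^ Q.natDegree ≤ ‖y‖ ^ P.natDegree := by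
      rw [← pow_succ']
      exact pow_le_pow_right₀ hy1 hdeg
    calc κ * ‖y‖ * ‖Q.eval y‖ ≤ κ * ‖y‖ * (b * ‖y‖ ^ Q.natDegree) := by gcongr
      _ = a * (‖y‖ * ‖y‖ ^ Q.natDegree) := by rw [hκ]; field_simp
      _ ≤ a * ‖y‖ ^ P.natDegree := by gcongr
      _ ≤ _ := h1
  set R : ℝ := 2 * R₀ + 4 / κ + 4 with hR
  have hpos : 0 < 4 / κ := by positivity
  have hbig : ∀ n : ℕ, 2 ≤ n → ∀ z : ℂ, R ≤ ‖z‖ → Q.eval (tn n z) ≠ 0 ∧
      2 * ‖z‖ ≤ ‖stp P Q n z‖ := by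
    intro n hn z hz
    have h1 := CH.tn_far hn z
    have h2 : R₀ ≤ ‖tn n z‖ := by nlinarith
    refine ⟨(hgr _ h2).1, ?_⟩
    have h3 := (hgr _ h2).2
    refine le_trans ?_ h3
    have h5 : 4 / κ + 1 ≤ ‖z‖ := by linarith
    have h6 : 4 + κ ≤ κ * ‖z‖ := by
      have := mul_le_mul_of_nonneg_left h5 hκ0.le
      rw [mul_add, mul_div_cancel₀ _ hκ0.ne', mul_one] at this
      exact this
    have h8 : κ * (‖z‖ ^ 2 - 1) ≤ κ * (2 * ‖tn n z‖) := by gcongr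
    have h9 : 1 ≤ ‖z‖ := by linarith
    nlinarith
  have hlim : ∀ n : ℕ, 2 ≤ n → ∀ z : ℂ, R ≤ ‖z‖ →
      Tendsto (fun k : ℕ => (fm g n)^[1 * k] (z : OnePoint ℂ)) atTop (𝓝 ∞) := by
    intro n hn z hz
    have h1 : ∀ k : ℕ, R ≤ ‖(stp P Q n)^[k] z‖ ∧ 2 ^ k * ‖z‖ ≤ ‖(stp P Q n)^[k] z‖ ∧
        (fm g n)^[k] (z : OnePoint ℂ) = (((stp P Q n)^[k] z : ℂ) : OnePoint ℂ) := by
      intro k
      induction k with
      | zero => exact ⟨hz, by simp, rfl⟩
      | succ k ih =>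
        obtain ⟨i1, i2, i3⟩ := ih
        have h2 := hbig n hn _ i1
        rw [Function.iterate_succ_apply', Function.iterate_succ_apply', i3, fm_stp hg h2.1, pow_succ]
        refine ⟨by linarith [h2.2, norm_nonneg ((stp P Q n)^[k] z)], by linarith [h2.2], rfl⟩
    have h2 : Tendsto (fun k : ℕ => ‖(stp P Q n)^[k] z‖) atTop atTop := by
      refine tendsto_atTop_mono (f := fun k : ℕ => (2 : ℝ) ^ k) (fun k => ?_)
        (tendsto_pow_atTop_atTop_of_one_lt (by norm_num))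
      have h3 : (0 : ℝ) < 2 ^ k := by positivity
      have h4 : 1 ≤ ‖z‖ := by linarith
      nlinarith [(h1 k).2.1]
    have h3 := tendsto_coe_nhds_infty_of_norm h2
    refine h3.congr fun k => ?_
    rw [one_mul, (h1 k).2.2]
  have hinf : g ∞ = ∞ := by
    obtain ⟨g', hg', hi⟩ := exists_isRat hg.cop hg.ne
    have h1 := rat_formula hg rfl (by omega : 0 < max P.natDegree Q.natDegree) (u := 1) (v := 0)
      (Or.inl one_ne_zero)
    rw [pr_zero, hom_zero, hom_zero, max_eq_left hdeg.le,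
      coeff_eq_zero_of_natDegree_lt hdeg, zero_mul, pr_zero] at h1
    exact h1
  have hsinkinf : ∀ n : ℕ, 2 ≤ n → ∀ w : OnePoint ℂ,
      (w = ∞ ∨ ∃ z : ℂ, w = z ∧ R ≤ ‖z‖) → Sinks (fm g n) w := by
    intro n hn w hw
    have hfix : ∀ k, (fm g n)^[1 * k] ∞ = ∞ := by
      intro k
      refine Function.iterate_fixed ?_ _
      rw [fm_infty, hinf]
    have hlim' : ∀ w : OnePoint ℂ, (w = ∞ ∨ ∃ z : ℂ, w = z ∧ R ≤ ‖z‖) →
        Tendsto (fun k : ℕ => (fm g n)^[1 * k] w) atTop (𝓝 ∞) := by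
      rintro w (rfl | ⟨z, rfl, hz⟩)
      · simp only [hfix]
        exact tendsto_const_nhds
      · exact hlim n hn z hz
    refine ⟨∞, 1, one_pos, hfix 1, ⟨{w | w = ∞ ∨ ∃ z : ℂ, w = z ∧ R ≤ ‖z‖}, ?_,
      fun w hw => hlim' w hw⟩, hlim' w hw⟩
    have h1 : (fun z : ℂ => (z : OnePoint ℂ)) ⁻¹'
        {w : OnePoint ℂ | w = ∞ ∨ ∃ z : ℂ, w = z ∧ R ≤ ‖z‖} ∈ Filter.coclosedCompact ℂ := by
      rw [coclosedCompact_eq_cocompact, ← Metric.cobounded_eq_cocompact]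
      have h2 : {z : ℂ | R ≤ ‖z‖} ∈ Bornology.cobounded ℂ :=
        tendsto_norm_cobounded_atTop.eventually_ge_atTop R
      filter_upwards [h2] with z hz
      exact Or.inr ⟨z, rfl, hz⟩
    rw [OnePoint.nhds_infty_eq]
    refine ⟨?_, Or.inl rfl⟩
    exact h1
  refine ⟨2 * R₀ + 2 * R / κ + 1, by positivity, fun n hn => ⟨hsinkinf n hn _ (Or.inl rfl),
    fun z hz => ?_⟩⟩
  have hn0 : (0 : ℝ) < n := by exact_mod_cast (by omega : 0 < n)
  have h1 := CH.tn_near (n := n) hz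
  rw [mul_div_cancel₀ _ hn0.ne'] at h1
  have hp2 : 0 < 2 * R / κ := by positivity
  have h2 : R₀ ≤ ‖tn n z‖ := by linarith
  have h3 := hgr _ h2
  have h5 : R / κ ≤ ‖tn n z‖ := by
    have : 2 * R / κ = 2 * (R / κ) := by ring
    linarith
  rw [div_le_iff₀ hκ0] at h5
  apply sinks_of_image (isRat_fm hn hg).cont
  rw [fm_stp hg h3.1]
  refine hsinkinf n hn _ (Or.inr ⟨_, rfl, ?_⟩)
  have h6 := h3.2
  show R ≤ ‖P.eval (tn n z) / Q.eval (tn n z)‖
  linarith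

end Pool.Agent.Q189.CR
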