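import Pool.Agent.Q189.CR.B

/-!
# The maps `R ∘ T_n` on the sphere: attraction when `R(∞)` is finite and off the segment
-/

set_option autoImplicit false

open Set Filter Topology Polynomial
open scoped OnePoint

namespace Pool.Agent.Q189.CR

open Pool.Agent.H762R2.Rt Pool.Agent.Helper114.Herman Pool.Agent.Helper114.Konig
open Pool.Agent.Q189.CH (tn Seg Sp SegS)

variable {P Q : ℂ[X]} {n : ℕ} {g : OnePoint ℂ → OnePoint ℂ}

/-- Attraction by a point near a finite `R(∞)`. -/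
theorem attr_finite (hg : IsRat g P Q) (hD : 0 < max P.natDegree Q.natDegree) {ρ : ℂ}
    (hρ : g ∞ = (ρ : OnePoint ℂ)) (hseg : ¬ Seg ρ) :
    ∃ C : ℝ, 0 < C ∧ ∃ n₀ : ℕ, ∀ n, n₀ ≤ n → Sinks (fm g n) ∞ ∧
      ∀ z : ℂ, (∀ t : ℝ, |t| ≤ 1 → C / n < ‖z - t‖) → Sinks (fm g n) (z : OnePoint ℂ) := by
  set d := Metric.infDist ρ SegS with hd
  have hd0 : 0 < d := CH.dist_pos hseg
  -- large values
  obtain ⟨R₁, hR₁, hnear⟩ : ∃ R₁ : ℝ, 0 < R₁ ∧ ∀ y : ℂ, R₁ ≤ ‖y‖ → Q.eval y ≠ 0 ∧
      ‖P.eval y / Q.eval y - ρ‖ < d / 16 := by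
    have h1 : (fun t : ℂ => (t : OnePoint ℂ)) '' Metric.ball ρ (d / 16) ∈ 𝓝 (g ∞) := by
      rw [hρ]
      exact (OnePoint.isOpenEmbedding_coe (X := ℂ)).isOpenMap.image_mem_nhds
        (Metric.ball_mem_nhds ρ (by positivity))
    have h2 := hg.cont.continuousAt.preimage_mem_nhds h1
    rw [OnePoint.nhds_infty_eq] at h2
    have h3 : (fun z : ℂ => (z : OnePoint ℂ)) ⁻¹'
        (g ⁻¹' ((fun t : ℂ => (t : OnePoint ℂ)) '' Metric.ball ρ (d / 16))) ∈
        Filter.coclosedCompact ℂ := h2.1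
    rw [coclosedCompact_eq_cocompact, ← Metric.cobounded_eq_cocompact, ← comap_norm_atTop,
      mem_comap] at h3
    obtain ⟨V, hV, hVs⟩ := h3
    obtain ⟨R₁, hR₁⟩ := mem_atTop_sets.1 hV
    refine ⟨max R₁ 1, by positivity, fun y hy => ?_⟩
    have h4 : y ∈ (fun z : ℂ => (z : OnePoint ℂ)) ⁻¹'
        (g ⁻¹' ((fun t : ℂ => (t : OnePoint ℂ)) '' Metric.ball ρ (d / 16))) :=
      hVs (hR₁ _ ((le_max_left _ _).trans hy))
    obtain ⟨t, ht, hty⟩ := h4
    have hQ : Q.eval y ≠ 0 := by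
      intro h0
      have h5 := g_pole hg hD h0
      simp only at hty
      rw [h5] at hty
      exact OnePoint.coe_ne_infty t hty
    refine ⟨hQ, ?_⟩
    simp only at hty
    rw [hg.eval _ hQ, OnePoint.coe_eq_coe] at hty
    rw [← hty, ← dist_eq_norm]
    exact Metric.mem_ball.1 ht
  obtain ⟨n₁, hn₁⟩ := exists_nat_gt (8 * R₁ / d)
  have hmain : ∀ n : ℕ, n₁ + 2 ≤ n → ∀ z : ℂ, ‖z - ρ‖ ≤ d / 2 → Q.eval (tn n z) ≠ 0 ∧
      ‖stp P Q n z - ρ‖ < d / 16 := by
    intro n hn z hz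
    apply hnear
    have h1 : ∀ t : ℝ, |t| ≤ 1 → d / 4 < ‖z - t‖ := by
      intro t ht
      have h2 : d ≤ ‖ρ - t‖ := CH.dist_le ht
      have h3 : ‖ρ - t‖ ≤ ‖z - ρ‖ + ‖z - t‖ := by
        have := norm_sub_le (z - t) (z - ρ)
        have e : z - (t : ℂ) - (z - ρ) = ρ - t := by ring
        rw [e] at this
        linarith
      linarith
    have h2 := CH.tn_near (n := n) h1
    have hn2 : (n₁ : ℝ) ≤ n := by exact_mod_cast (by omega : n₁ ≤ n)
    rw [div_lt_iff₀ hd0] at hn₁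
    nlinarith
  have hball : ∀ n : ℕ, n₁ + 2 ≤ n → ∀ z : ℂ, ‖z - ρ‖ ≤ d / 8 →
      Sinks (fm g n) (z : OnePoint ℂ) := by
    intro n hn z hz
    have hdiff : ∀ y : ℂ, ‖y - ρ‖ ≤ d / 2 → DifferentiableAt ℂ (stp P Q n) y := fun y hy =>
      (stp_deriv (hmain n hn y hy).1).hasDerivAt.differentiableAt
    have hder : ∀ y ∈ Metric.closedBall ρ (d / 8), ‖deriv (stp P Q n) y‖ ≤ 1 / 4 := by
      intro y hy
      rw [Metric.mem_closedBall, dist_eq_norm] at hy
      have h1 : ‖deriv (fun w => stp P Q n w - ρ) y‖ ≤ (d / 16) / (d / 4) := by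
        apply Complex.norm_deriv_le_of_forall_mem_sphere_norm_le (by positivity)
        · refine DifferentiableOn.diffContOnCl ?_
          rw [closure_ball y (by positivity)]
          intro w hw
          rw [Metric.mem_closedBall, dist_eq_norm] at hw
          refine ((hdiff w ?_).sub_const ρ).differentiableWithinAt
          have := norm_add_le (w - y) (y - ρ)
          rw [sub_add_sub_cancel] at this
          linarith
        · intro w hw
          rw [Metric.mem_sphere, dist_eq_norm] at hw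
          refine (hmain n hn w ?_).2.le
          have := norm_add_le (w - y) (y - ρ)
          rw [sub_add_sub_cancel] at this
          linarith
      rw [deriv_sub_const] at h1
      have e : (d / 16) / (d / 4) = 1 / 4 := by field_simp; norm_num
      rwa [e] at h1
    refine sinks_of_disc (F := stp P Q n) (v := ρ) (R := d / 8) (q := 1 / 4) (τ := 1)
      (by positivity) (by norm_num) (by norm_num) one_pos ?_ ?_ ?_ hz
    · intro y hy
      rw [Function.iterate_one]
      exact fm_stp hg (hmain n hn y (by linarith)).1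
    · intro y hy
      have := (hmain n hn y (by linarith)).2
      linarith
    · intro y w hy hw
      have h1 := (convex_closedBall ρ (d / 8)).norm_image_sub_le_of_norm_deriv_le
        (f := stp P Q n) (C := 1 / 4) (x := w) (y := y)
        (fun u hu => hdiff u (by
          rw [Metric.mem_closedBall, dist_eq_norm] at hu
          linarith)) hder
        (by rw [Metric.mem_closedBall, dist_eq_norm]; exact hw)
        (by rw [Metric.mem_closedBall, dist_eq_norm]; exact hy)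
      exact h1
  refine ⟨2 * R₁ + 1, by positivity, n₁ + 2, fun n hn => ⟨?_, fun z hz => ?_⟩⟩
  · apply sinks_of_image (isRat_fm (by omega) hg).cont
    rw [fm_infty, hρ]
    exact hball n hn ρ (by simp; positivity)
  · have hn0 : (0 : ℝ) < n := by exact_mod_cast (by omega : 0 < n)
    have h1 := CH.tn_near (n := n) hz
    rw [mul_div_cancel₀ _ hn0.ne'] at h1
    have h3 := hnear (tn n z) (by linarith)
    apply sinks_of_image (isRat_fm (by omega) hg).cont
    rw [fm_stp hg h3.1]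
    refine hball n hn _ ?_
    have h4 := h3.2
    show ‖P.eval (tn n z) / Q.eval (tn n z) - ρ‖ ≤ d / 8
    linarith

/-- Attraction off the segment. -/
theorem attr (hg : IsRat g P Q) (hD : 0 < max P.natDegree Q.natDegree)
    (hρ : ∀ t : ℝ, |t| ≤ 1 → g ∞ ≠ ((t : ℂ) : OnePoint ℂ)) :
    ∃ C : ℝ, 0 < C ∧ ∃ n₀ : ℕ, ∀ n, n₀ ≤ n → Sinks (fm g n) ∞ ∧
      ∀ z : ℂ, (∀ t : ℝ, |t| ≤ 1 → C / n < ‖z - t‖) → Sinks (fm g n) (z : OnePoint ℂ) := by
  by_cases hdeg : Q.natDegree < P.natDegree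
  · obtain ⟨C, hC, h⟩ := attr_infty hg hdeg
    exact ⟨C, hC, 2, h⟩
  · rw [not_lt] at hdeg
    have h1 := rat_formula hg rfl hD (u := 1) (v := 0) (Or.inl one_ne_zero)
    rw [pr_zero, hom_zero, hom_zero, max_eq_right hdeg, one_pow, mul_one, mul_one] at h1
    have hQ0 : Q.coeff Q.natDegree ≠ 0 := by
      rw [coeff_natDegree]
      exact leadingCoeff_ne_zero.2 hg.ne
    rw [pr_ne hQ0] at h1
    refine attr_finite hg hD h1 ?_
    rintro ⟨t, ht, he⟩
    rw [he] at h1
    exact hρ t ht h1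

end Pool.Agent.Q189.CR
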