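import Pool.Agent.Q189.CR.C

/-!
# The zero-one law for `R ∘ T_n`, `R` rational
-/

set_option autoImplicit false

open Set Filter Topology Polynomial
open scoped OnePoint

namespace Pool.Agent.Q189.CR

open Pool.Agent.H762R2.Rt Pool.Agent.Helper114.Herman Pool.Agent.Helper114.Konig
open Pool.Agent.Q189.CH (tn Seg Sp SegS fin_lo)

variable {P Q : ℂ[X]} {n : ℕ} {g : OnePoint ℂ → OnePoint ℂ}

/-- Finite values of `P / Q` at `± 1` and at the critical points. -/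
def CV (P Q : ℂ[X]) (v : ℂ) : Prop :=
  (Q.eval 1 ≠ 0 ∧ v = P.eval 1 / Q.eval 1) ∨ (Q.eval (-1) ≠ 0 ∧ v = P.eval (-1) / Q.eval (-1)) ∨
    ∃ y : ℂ, (wro P Q).eval y = 0 ∧ Q.eval y ≠ 0 ∧ v = P.eval y / Q.eval y

/-- `x` is neither a pole nor a critical point. -/
def Reg (P Q : ℂ[X]) (n : ℕ) (x : ℂ) : Prop :=
  (wro P Q).eval (tn n x) ≠ 0 ∧ ((tn n x) ^ 2 = 1 → x ^ 2 = 1)

/-- resonance -/
def Res (P Q : ℂ[X]) (n : ℕ) : Prop :=
  ∃ v : ℂ, CV P Q v ∧ ∀ j : ℕ, Sp ((stp P Q n)^[j] v) ∧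
    Q.eval (tn n ((stp P Q n)^[j] v)) ≠ 0 ∧ Reg P Q n ((stp P Q n)^[j] v)

/-- exceptional exponents -/
def Exc (P Q : ℂ[X]) (δ : ℝ) (n : ℕ) : Prop :=
  ∃ v : ℂ, CV P Q v ∧ ∃ j : ℕ,
    (∀ i < j, Sp ((stp P Q n)^[i] v) ∧ Q.eval (tn n ((stp P Q n)^[i] v)) ≠ 0) ∧
    Seg ((stp P Q n)^[j] v) ∧ ¬ Sp ((stp P Q n)^[j] v) ∧
    Q.eval (tn n ((stp P Q n)^[j] v)) ≠ 0 ∧
    ∃ t : ℝ, |t| ≤ 1 ∧ ‖(stp P Q n)^[j + 1] v - t‖ ≤ δ

/-- The segment is mapped into the segment only at finitely many points. -/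
def FZ (P Q : ℂ[X]) : Prop :=
  {u : ℂ | Seg u ∧ Q.eval u ≠ 0 ∧ Seg (P.eval u / Q.eval u)}.Finite

/-- The possible points of the orbits. -/
def XS (P Q : ℂ[X]) : Set ℂ :=
  {x | CV P Q x ∨ ∃ u : ℂ, (Seg u ∧ Q.eval u ≠ 0 ∧ Seg (P.eval u / Q.eval u)) ∧
    x = P.eval u / Q.eval u}

theorem stp_succ (j : ℕ) (v : ℂ) : (stp P Q n)^[j + 1] v =
    P.eval (tn n ((stp P Q n)^[j] v)) / Q.eval (tn n ((stp P Q n)^[j] v)) := by
  rw [Function.iterate_succ_apply']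
  rfl

/-- The finite critical points take finitely many values. -/
theorem wro_ne (hc : IsCoprime P Q) (hD : 0 < max P.natDegree Q.natDegree) : wro P Q ≠ 0 := by
  intro h
  have h1 : derivative P * Q = P * derivative Q := sub_eq_zero.1 h
  have h2 : Q ∣ derivative Q := by
    apply hc.symm.dvd_of_dvd_mul_left
    rw [← h1]
    exact Dvd.intro_left _ rfl
  have h3 : P ∣ derivative P := by
    apply hc.dvd_of_dvd_mul_right
    rw [h1]
    exact Dvd.intro _ rfl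
  have key : ∀ S : ℂ[X], S ∣ derivative S → S.natDegree = 0 := by
    intro S hS
    by_contra hne
    have h4 : derivative S ≠ 0 := by
      intro h0
      exact hne (derivative_eq_zero.1 h0)
    have h5 := natDegree_le_of_dvd hS h4
    have h6 := natDegree_derivative_lt hne
    omega
  have := key P h3
  have := key Q h2
  omega

theorem cv_finite (hc : IsCoprime P Q) (hD : 0 < max P.natDegree Q.natDegree) :
    {v | CV P Q v}.Finite := by
  have h1 : {y : ℂ | (wro P Q).eval y = 0}.Finite := by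
    have h2 := (wro P Q).roots.toFinset.finite_toSet
    refine h2.subset fun y hy => ?_
    simp only [Finset.mem_coe, Multiset.mem_toFinset, mem_roots', ne_eq]
    exact ⟨wro_ne hc hD, hy⟩
  refine (((Set.finite_singleton (P.eval 1 / Q.eval 1)).union
    (Set.finite_singleton (P.eval (-1) / Q.eval (-1)))).union
    (h1.image fun y => P.eval y / Q.eval y)).subset ?_
  rintro v (⟨-, h⟩ | ⟨-, h⟩ | ⟨y, hy, -, h⟩)
  · exact Or.inl (Or.inl h)
  · exact Or.inl (Or.inr h)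
  · exact Or.inr ⟨y, hy, h.symm⟩

theorem XS_finite (hc : IsCoprime P Q) (hD : 0 < max P.natDegree Q.natDegree) (hZ : FZ P Q) :
    (XS P Q).Finite := by
  refine ((cv_finite hc hD).union (hZ.image fun y => P.eval y / Q.eval y)).subset ?_
  rintro v (h | ⟨y, hy, h⟩)
  · exact Or.inl h
  · exact Or.inr ⟨y, hy, h.symm⟩

theorem orbit_XS {v : ℂ} (hv : CV P Q v) {j : ℕ}
    (h : ∀ i < j, Sp ((stp P Q n)^[i] v) ∧ Q.eval (tn n ((stp P Q n)^[i] v)) ≠ 0)
    (hj : Seg ((stp P Q n)^[j] v)) : (stp P Q n)^[j] v ∈ XS P Q := by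
  rcases j with - | j
  · exact Or.inl hv
  · rw [stp_succ] at hj ⊢
    exact Or.inr ⟨_, ⟨(h j (by omega)).1.seg.tn n, (h j (by omega)).2, hj⟩, rfl⟩

theorem res_congr {M m : ℕ} (hM : ∀ x ∈ {x ∈ XS P Q | Sp x}, ∀ n m : ℕ, n ≡ m [MOD M] →
    tn n x = tn m x) (h : n ≡ m [MOD M]) (hr : Res P Q n) : Res P Q m := by
  obtain ⟨v, hv, hall⟩ := hr
  have hX : ∀ j, (stp P Q n)^[j] v ∈ {x ∈ XS P Q | Sp x} := fun j =>
    ⟨orbit_XS hv (fun i _ => ⟨(hall i).1, (hall i).2.1⟩) (hall j).1.seg, (hall j).1⟩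
  have heq : ∀ j, (stp P Q m)^[j] v = (stp P Q n)^[j] v := by
    intro j
    induction j with
    | zero => rfl
    | succ j ih => rw [stp_succ, stp_succ, ih, hM _ (hX j) n m h]
  refine ⟨v, hv, fun j => ?_⟩
  rw [heq]
  have h1 := (hall j).2.2
  have h2 := (hall j).2.1
  unfold Reg at h1 ⊢
  rw [← hM _ (hX j) n m h]
  exact ⟨(hall j).1, h2, h1⟩

/-- The derivative of `R ∘ T_n`. -/
noncomputable def dv (P Q : ℂ[X]) (n : ℕ) (x : ℂ) : ℂ :=
  (wro P Q).eval (tn n x) / (Q.eval (tn n x)) ^ 2 * (derivative (Chebyshev.T ℂ n)).eval x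

theorem reg_iff (hn : 1 ≤ n) {x : ℂ} (hx : Q.eval (tn n x) ≠ 0) :
    Reg P Q n x ↔ dv P Q n x ≠ 0 := by
  unfold dv Reg
  rw [mul_ne_zero_iff, div_ne_zero_iff, Ne, Ne, Ne, CH.dT_zero_iff hn]
  have : Q.eval (tn n x) ^ 2 ≠ 0 := pow_ne_zero 2 hx
  tauto

theorem cv_of_crit (hn : 1 ≤ n) {c : ℂ} (hc : dv P Q n c = 0) (hQ : Q.eval (tn n c) ≠ 0) :
    CV P Q (stp P Q n c) := by
  unfold dv at hc
  rw [mul_eq_zero, div_eq_zero_iff] at hc
  rcases hc with (h | h) | h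
  · exact Or.inr (Or.inr ⟨_, h, hQ, rfl⟩)
  · exact absurd h (pow_ne_zero 2 hQ)
  · rcases CH.sq_eq_one_iff_of_ne_zero' ((CH.dT_zero_iff hn c).1 h).1 with h1 | h1
    · rw [h1] at hQ
      exact Or.inl ⟨hQ, by unfold stp; rw [h1]⟩
    · rw [h1] at hQ
      exact Or.inr (Or.inl ⟨hQ, by unfold stp; rw [h1]⟩)

/-- Large derivatives at the points of the finite set. -/
theorem exists_large {M : ℕ} (hc : IsCoprime P Q) (hD : 0 < max P.natDegree Q.natDegree)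
    (hZ : FZ P Q) (hM0 : 0 < M)
    (hM : ∀ x ∈ {x ∈ XS P Q | Sp x}, ∀ n m : ℕ, n ≡ m [MOD M] → tn n x = tn m x) :
    ∃ n₁ : ℕ, ∀ n, n₁ ≤ n → ∀ x ∈ {x ∈ XS P Q | Sp x}, Q.eval (tn n x) ≠ 0 → Reg P Q n x →
      1 < ‖dv P Q n x‖ := by
  have hX : ({x ∈ XS P Q | Sp x}).Finite := (XS_finite hc hD hZ).subset (Set.sep_subset _ _)
  set Y : Set ℂ := (fun p : ℂ × ℕ => tn p.2 p.1) '' ({x ∈ XS P Q | Sp x} ×ˢ Set.Iio M) with hY
  have hYf : Y.Finite := (hX.prod (Set.finite_Iio M)).image _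
  have hYm : ∀ x ∈ {x ∈ XS P Q | Sp x}, ∀ n, tn n x ∈ Y := by
    intro x hx n
    refine ⟨(x, n % M), ⟨hx, Nat.mod_lt _ hM0⟩, ?_⟩
    exact hM x hx _ _ (Nat.mod_modEq n M)
  obtain ⟨c₁, hc₁, h1⟩ := fin_lo (hYf.subset (Set.sep_subset Y
    fun y => (wro P Q).eval y ≠ 0 ∧ Q.eval y ≠ 0))
    (fun y => ‖(wro P Q).eval y / (Q.eval y) ^ 2‖)
    (fun y hy => norm_pos_iff.2 (div_ne_zero hy.2.1 (pow_ne_zero 2 hy.2.2)))
  obtain ⟨c₂, hc₂, h2⟩ := fin_lo (hYf.subset (Set.sep_subset Y fun y => y ^ 2 ≠ 1))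
    (fun y => ‖1 - y ^ 2‖) (fun y hy => norm_pos_iff.2 fun h => hy.2 (by linear_combination -h))
  set c : ℝ := min c₂ 1 with hcd
  have hc0 : 0 < c := lt_min hc₂ one_pos
  have hc1 : c ≤ 1 := min_le_right _ _
  obtain ⟨n₁, hn₁⟩ := exists_nat_gt (1 / (c₁ ^ 2 * c))
  refine ⟨n₁ + 1, fun n hn x hx hq hr => ?_⟩
  have hn1 : (1 : ℝ) ≤ n := by exact_mod_cast (by omega : 1 ≤ n)
  have hT : (n : ℝ) ^ 2 * c ≤ ‖(derivative (Chebyshev.T ℂ n)).eval x‖ ^ 2 := by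
    by_cases hx1 : x ^ 2 = 1
    · rw [CH.dT_one n hx1]
      have h5 : (n : ℝ) ^ 2 ≤ ((n : ℝ) ^ 2) ^ 2 := by
        have : (1 : ℝ) ≤ (n : ℝ) ^ 2 := one_le_pow₀ hn1
        nlinarith
      nlinarith [sq_nonneg (n : ℝ)]
    · have hy1 : (tn n x) ^ 2 ≠ 1 := fun h => hx1 (hr.2 h)
      have h3 := congrArg norm (CH.tn_pell n x)
      rw [norm_mul, norm_mul, norm_pow, norm_pow, Complex.norm_natCast] at h3
      have h4 : ‖1 - x ^ 2‖ ≤ 1 := by
        obtain ⟨t, ht, rfl⟩ := hx.2.seg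
        have : (1 - (t : ℂ) ^ 2) = ((1 - t ^ 2 : ℝ) : ℂ) := by push_cast; ring
        rw [this, Complex.norm_real, Real.norm_eq_abs, abs_le]
        have h6 := sq_le_one_iff_abs_le_one t |>.2 ht
        constructor <;> nlinarith [sq_nonneg t]
      have h5 : c ≤ ‖1 - tn n x ^ 2‖ := (min_le_left _ _).trans (h2 _ ⟨hYm x hx n, hy1⟩)
      calc (n : ℝ) ^ 2 * c ≤ (n : ℝ) ^ 2 * ‖1 - tn n x ^ 2‖ := by gcongr
        _ = ‖1 - x ^ 2‖ * ‖(derivative (Chebyshev.T ℂ n)).eval x‖ ^ 2 := h3.symm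
        _ ≤ 1 * ‖(derivative (Chebyshev.T ℂ n)).eval x‖ ^ 2 := by gcongr
        _ = _ := one_mul _
  unfold dv
  rw [norm_mul]
  have h6 := h1 _ ⟨hYm x hx n, hr.1, hq⟩
  have h7 : 1 < (‖(wro P Q).eval (tn n x) / (Q.eval (tn n x)) ^ 2‖ *
      ‖(derivative (Chebyshev.T ℂ n)).eval x‖) ^ 2 := by
    rw [mul_pow]
    have h8 : (n₁ : ℝ) ≤ n := by exact_mod_cast (by omega : n₁ ≤ n)
    have h9 : 1 < c₁ ^ 2 * c * n := by
      rw [div_lt_iff₀ (by positivity)] at hn₁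
      nlinarith [mul_pos (pow_pos hc₁ 2) hc0]
    calc (1 : ℝ) < c₁ ^ 2 * c * n := h9
      _ ≤ c₁ ^ 2 * c * n * n := by nlinarith
      _ = c₁ ^ 2 * (n ^ 2 * c) := by ring
      _ ≤ _ := by gcongr
  exact (one_lt_sq_iff₀ (by positivity)).1 h7

/-- Two maps of the sphere with the same fraction agree. -/
theorem isRat_unique {A B : ℂ[X]} {f f' : OnePoint ℂ → OnePoint ℂ} (hf : IsRat f A B)
    (hf' : IsRat f' A B) (hD : 0 < max A.natDegree B.natDegree) : f = f' := by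
  funext x
  obtain ⟨a, b, hab, rfl⟩ := exists_pr x
  rw [rat_formula hf rfl hD hab, rat_formula hf' rfl hD hab]

theorem deg_pos (hn : 1 ≤ n) (hD : 0 < max P.natDegree Q.natDegree) :
    0 < max (P.comp (Chebyshev.T ℂ n)).natDegree (Q.comp (Chebyshev.T ℂ n)).natDegree := by
  rw [natDegree_comp, natDegree_comp, Chebyshev.natDegree_T, Int.natAbs_natCast,
    ← max_mul_of_nonneg _ _ (Nat.zero_le n)]
  exact Nat.mul_pos hD hn

theorem fm_fib (hn : 2 ≤ n) (hg : IsRat g P Q) (hD : 0 < max P.natDegree Q.natDegree)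
    (w : OnePoint ℂ) : (fm g n ⁻¹' {w}).Finite :=
  finite_fiber (isRat_fm hn hg) (deg_pos (by omega) hD) w

/-- The critical points over the critical values. -/
theorem crit_of_cv (hn : 3 ≤ n) {v : ℂ} (hv : CV P Q v) :
    ∃ c : ℂ, dv P Q n c = 0 ∧ Q.eval (tn n c) ≠ 0 ∧ stp P Q n c = v := by
  have hn0 : (n : ℂ) ≠ 0 := by exact_mod_cast (by omega : n ≠ 0)
  have hnR : (0 : ℝ) < n := by exact_mod_cast (by omega : 0 < n)
  have hn3 : (3 : ℝ) ≤ n := by exact_mod_cast hn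
  have key : ∀ k : ℝ, 0 < k → k < n → ∀ s : ℂ, s ^ 2 = 1 → Complex.cos (k * Real.pi) = s →
      Q.eval s ≠ 0 → v = P.eval s / Q.eval s →
      ∃ c : ℂ, dv P Q n c = 0 ∧ Q.eval (tn n c) ≠ 0 ∧ stp P Q n c = v := by
    intro k hk0 hk1 s hs1 hs2 hQs hv
    have hpi := Real.pi_pos
    have htn : tn n (Complex.cos ((k / n * Real.pi : ℝ) : ℂ)) = s := by
      rw [CH.tn_cos, ← hs2]
      congr 1
      push_cast
      field_simp
    refine ⟨Complex.cos ((k / n * Real.pi : ℝ) : ℂ), ?_, by rw [htn]; exact hQs,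
      by unfold stp; rw [htn, hv]⟩
    unfold dv
    apply mul_eq_zero_of_right
    rw [CH.dT_zero_iff (by omega)]
    refine ⟨by rw [htn, hs1], ?_⟩
    intro h1
    have h2 : Complex.sin ((k / n * Real.pi : ℝ) : ℂ) ^ 2 = 0 := by
      have := Complex.sin_sq_add_cos_sq ((k / n * Real.pi : ℝ) : ℂ)
      linear_combination this - h1
    have h3 : Complex.sin ((k / n * Real.pi : ℝ) : ℂ) = 0 := pow_eq_zero_iff two_ne_zero |>.1 h2
    rw [← Complex.ofReal_sin] at h3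
    have h4 : Real.sin (k / n * Real.pi) = 0 := by exact_mod_cast h3
    have h5 : 0 < Real.sin (k / n * Real.pi) := by
      apply Real.sin_pos_of_pos_of_lt_pi
      · positivity
      · have : k / n < 1 := by rw [div_lt_one hnR]; exact hk1
        nlinarith
    exact h5.ne' h4
  rcases hv with ⟨hq, h⟩ | ⟨hq, h⟩ | ⟨y, hy, hq, h⟩
  · refine key 2 two_pos (by linarith) 1 (by norm_num) ?_ hq h
    have := Complex.cos_two_pi
    push_cast
    exact this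
  · refine key 1 one_pos (by linarith) (-1) (by norm_num) ?_ hq h
    push_cast
    rw [one_mul]
    exact Complex.cos_pi
  · obtain ⟨θ, rfl⟩ := Complex.cos_surjective y
    have htn : tn n (Complex.cos (θ / n)) = Complex.cos θ := by
      rw [CH.tn_cos, mul_div_cancel₀ _ hn0]
    exact ⟨Complex.cos (θ / n), by unfold dv; rw [htn, hy, zero_div, zero_mul],
      by rw [htn]; exact hq, by unfold stp; rw [htn, h]⟩

/-- Points with derivative zero are critical. -/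
theorem not_inj_of_dv (hg : IsRat g P Q) {c : ℂ} (hc : dv P Q n c = 0)
    (hQ : Q.eval (tn n c) ≠ 0) : ¬ ∃ U ∈ 𝓝 (c : OnePoint ℂ), Set.InjOn (fm g n) U := by
  rintro ⟨U, hU, hinj⟩
  have h1 : {y : ℂ | (y : OnePoint ℂ) ∈ U} ∈ 𝓝 c :=
    (OnePoint.continuous_coe (X := ℂ)).continuousAt.preimage_mem_nhds hU
  have h2 : {y : ℂ | Q.eval (tn n y) ≠ 0} ∈ 𝓝 c := by
    have : Continuous fun y : ℂ => Q.eval (tn n y) := Q.continuous.comp (continuous_tn n)
    exact this.continuousAt.eventually_ne hQ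
  obtain ⟨δ, hδ, hball⟩ := Metric.mem_nhds_iff.1 (inter_mem h1 h2)
  have hev : ∀ y ∈ Metric.ball c δ, fm g n (y : OnePoint ℂ) =
      ((stp P Q n y : ℂ) : OnePoint ℂ) := fun y hy => fm_stp hg (hball hy).2
  have hdiff : DifferentiableOn ℂ (stp P Q n) (Metric.ball c δ) := fun y hy =>
    (stp_deriv (hball hy).2).hasDerivAt.differentiableAt.differentiableWithinAt
  have hinj' : Set.InjOn (stp P Q n) (Metric.ball c δ) := by
    intro a ha b hb hab
    have h5 : fm g n (a : OnePoint ℂ) = fm g n (b : OnePoint ℂ) := by rw [hev a ha, hev b hb, hab]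
    exact OnePoint.coe_injective (hinj (hball ha).1 (hball hb).1 h5)
  have h6 := Pool.Agent.Helper202.Univ.deriv_ne_zero Metric.isOpen_ball hdiff hinj'
    (Metric.mem_ball_self hδ)
  apply h6
  rw [(stp_deriv hQ).hasDerivAt.deriv]
  exact hc

/-- The polynomials of the fraction of `R ∘ T_n`. -/
noncomputable def num (P : ℂ[X]) (n : ℕ) : ℂ[X] := P.comp (Chebyshev.T ℂ n)

theorem not_hyp (hg : IsRat g P Q) (hD : 0 < max P.natDegree Q.natDegree) (hZ : FZ P Q) {M : ℕ}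
    (hM0 : 0 < M)
    (hM : ∀ x ∈ {x ∈ XS P Q | Sp x}, ∀ n m : ℕ, n ≡ m [MOD M] → tn n x = tn m x) :
    ∃ n₁ : ℕ, ∀ n, n₁ ≤ n → Res P Q n → ¬ Hyp (num P n) (num Q n) := by
  obtain ⟨n₁, h1⟩ := exists_large hg.cop hD hZ hM0 hM
  have hX : ({x ∈ XS P Q | Sp x}).Finite := (XS_finite hg.cop hD hZ).subset (Set.sep_subset _ _)
  refine ⟨max n₁ 3, fun n hn hr hh => ?_⟩
  have hn1 : n₁ ≤ n := le_of_max_le_left hn
  have hn3 : 3 ≤ n := le_of_max_le_right hn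
  obtain ⟨hcop, f, hfc, hfe, hfs⟩ := hh
  have hf : f = fm g n := isRat_unique (A := num P n) (B := num Q n)
    ⟨hfc, hcop, comp_ne (by omega) hg.ne, hfe⟩ (isRat_fm (by omega) hg) (deg_pos (by omega) hD)
  subst hf
  obtain ⟨v, hv, hall⟩ := hr
  obtain ⟨c, hc, hcQ, hcv⟩ := crit_of_cv hn3 hv
  have hXv : ∀ j, (stp P Q n)^[j] v ∈ {x ∈ XS P Q | Sp x} := fun j =>
    ⟨orbit_XS hv (fun i _ => ⟨(hall i).1, (hall i).2.1⟩) (hall j).1.seg, (hall j).1⟩
  have hs := hfs _ (not_inj_of_dv hg hc hcQ)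
  -- the value is attracted
  have hs2 : Sinks (fm g n) (v : OnePoint ℂ) := by
    have hcont := (isRat_fm (by omega : 2 ≤ n) hg).cont
    obtain ⟨z, m, hm, hz, ⟨U, hU, hUt⟩, hct⟩ := hs
    obtain ⟨k, rfl⟩ : ∃ k, m = k + 1 := ⟨m - 1, by omega⟩
    refine ⟨fm g n z, k + 1, hm, ?_, ⟨(fm g n)^[k] ⁻¹' U, ?_, ?_⟩, ?_⟩
    · rw [← Function.iterate_succ_apply, Function.iterate_succ_apply', hz]
    · apply (hcont.iterate k).continuousAt.preimage_mem_nhds
      rw [← Function.iterate_succ_apply, hz]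
      exact hU
    · intro w hw
      have h1 := (hcont.tendsto z).comp (hUt _ hw)
      rw [← tendsto_add_atTop_iff_nat 1]
      refine h1.congr fun i => ?_
      show fm g n ((fm g n)^[(k + 1) * i] ((fm g n)^[k] w)) = (fm g n)^[(k + 1) * (i + 1)] w
      rw [← Function.iterate_add_apply, ← Function.iterate_succ_apply' (fm g n)]
      congr 2
    · refine ((hcont.tendsto z).comp hct).congr fun i => ?_
      show fm g n ((fm g n)^[(k + 1) * i] c) = (fm g n)^[(k + 1) * i] (v : OnePoint ℂ)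
      rw [← Function.iterate_succ_apply' (fm g n), Function.iterate_succ_apply, fm_stp hg hcQ, hcv]
  exact not_sinks (S := stp P Q n) (lam := fun j => dv P Q n ((stp P Q n)^[j] v))
    (fm_fib (by omega) hg hD) (fun j => good_stp hg (hall j).2.1)
    (fun j => h1 n hn1 _ (hXv j) (hall j).2.1 (hall j).2.2) hX hXv hs2

theorem hyp (hg : IsRat g P Q) (hD : 0 < max P.natDegree Q.natDegree)
    (hρ : ∀ t : ℝ, |t| ≤ 1 → g ∞ ≠ ((t : ℂ) : OnePoint ℂ)) (hZ : FZ P Q) {M : ℕ} (hM0 : 0 < M)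
    (hM : ∀ x ∈ {x ∈ XS P Q | Sp x}, ∀ n m : ℕ, n ≡ m [MOD M] → tn n x = tn m x) :
    ∃ C : ℝ, 0 < C ∧ ∃ n₁ : ℕ, ∀ n, n₁ ≤ n → ¬ Res P Q n → ¬ Exc P Q (C / n) n →
      Hyp (num P n) (num Q n) := by
  obtain ⟨C, hC, n₀, hatt⟩ := attr hg hD hρ
  have hX : ({x ∈ XS P Q | Sp x}).Finite := (XS_finite hg.cop hD hZ).subset (Set.sep_subset _ _)
  -- the points off the segment
  set Y : Set ℂ := (fun p : ℂ × ℕ => P.eval (tn p.2 p.1) / Q.eval (tn p.2 p.1)) ''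
    ({x ∈ XS P Q | Sp x} ×ˢ Set.Iio M) with hY
  have hYf : Y.Finite := (hX.prod (Set.finite_Iio M)).image _
  have hYm : ∀ x ∈ {x ∈ XS P Q | Sp x}, ∀ n, P.eval (tn n x) / Q.eval (tn n x) ∈ Y := by
    intro x hx n
    refine ⟨(x, n % M), ⟨hx, Nat.mod_lt _ hM0⟩, ?_⟩
    simp only []
    rw [hM x hx _ _ (Nat.mod_modEq n M)]
  obtain ⟨c, hc, hlo⟩ := fin_lo (((cv_finite hg.cop hD).union hYf).subset
    (Set.sep_subset ({v | CV P Q v} ∪ Y) fun y => ¬ Seg y))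
    (fun y => Metric.infDist y SegS) (fun y hy => CH.dist_pos hy.2)
  obtain ⟨n₁, hn₁⟩ := exists_nat_gt (C / c)
  refine ⟨C, hC, n₀ + n₁ + 3, fun n hn hres hexc => ?_⟩
  have hn3 : 3 ≤ n := by omega
  have hnR : (0 : ℝ) < n := by exact_mod_cast (by omega : 0 < n)
  have hCc : C / n < c := by
    have h8 : (n₁ : ℝ) ≤ n := by exact_mod_cast (by omega : n₁ ≤ n)
    rw [div_lt_iff₀ hc] at hn₁
    rw [div_lt_iff₀ hnR]
    nlinarith
  obtain ⟨hinf, hfar⟩ := hatt n (by omega)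
  have hrat := isRat_fm (by omega : 2 ≤ n) hg
  have hcont := hrat.cont
  refine ⟨hrat.cop, fm g n, hcont, hrat.eval, ?_⟩
  intro z hz
  induction z using OnePoint.rec with
  | infty => exact hinf
  | coe z =>
    -- poles
    have hpole : ∀ y : ℂ, Q.eval (tn n y) = 0 → Sinks (fm g n) (y : OnePoint ℂ) := by
      intro y hy
      apply sinks_of_image hcont
      rw [fm_coe, g_pole hg hD hy]
      exact hinf
    by_cases hzQ : Q.eval (tn n z) = 0
    · exact hpole z hzQ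
    have hdz : dv P Q n z = 0 := by
      by_contra hne
      apply hz
      obtain ⟨U, hU, hinj⟩ := injOn_of_deriv (stp_deriv (P := P) hzQ) hne
      have h : Continuous fun y : ℂ => Q.eval (tn n y) := Q.continuous.comp (continuous_tn n)
      have h2 := h.continuousAt.eventually_ne hzQ
      refine ⟨(fun t : ℂ => (t : OnePoint ℂ)) '' (U ∩ {y | Q.eval (tn n y) ≠ 0}),
        (OnePoint.isOpenEmbedding_coe (X := ℂ)).isOpenMap.image_mem_nhds (inter_mem hU h2), ?_⟩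
      rintro _ ⟨a, ha, rfl⟩ _ ⟨b, hb, rfl⟩ hab
      simp only at hab ⊢
      rw [fm_stp hg ha.2, fm_stp hg hb.2, OnePoint.coe_eq_coe] at hab
      rw [hinj ha.1 hb.1 hab]
    have hv := cv_of_crit (by omega) hdz hzQ
    apply sinks_of_image hcont
    rw [fm_stp hg hzQ]
    by_cases hall : ∀ j, Sp ((stp P Q n)^[j] (stp P Q n z)) ∧
        Q.eval (tn n ((stp P Q n)^[j] (stp P Q n z))) ≠ 0
    · set v := stp P Q n z with hvdef
      have hXv : ∀ j, (stp P Q n)^[j] v ∈ {x ∈ XS P Q | Sp x} := fun j =>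
        ⟨orbit_XS hv (fun i _ => hall i) (hall j).1.seg, (hall j).1⟩
      refine sinks_super hcont (S := stp P Q n) (lam := fun j => dv P Q n ((stp P Q n)^[j] v))
        (fun j => good_stp hg (hall j).2) hX hXv ?_
      -- a critical point after a critical value
      have hstep : ∀ i, CV P Q ((stp P Q n)^[i] v) →
          ∃ j, i ≤ j ∧ dv P Q n ((stp P Q n)^[j] v) = 0 := by
        intro i hi
        by_contra hcon
        push Not at hcon
        apply hres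
        refine ⟨_, hi, fun j => ?_⟩
        rw [← Function.iterate_add_apply]
        exact ⟨(hall _).1, (hall _).2, (reg_iff (by omega) (hall _).2).2 (hcon _ (by omega))⟩
      intro J
      induction J with
      | zero => exact hstep 0 hv
      | succ J ih =>
        obtain ⟨j, hj, hj0⟩ := ih
        have h1 := cv_of_crit (by omega) hj0 (hall j).2
        rw [← Function.iterate_succ_apply' (stp P Q n)] at h1
        obtain ⟨i, hi, hi0⟩ := hstep (j + 1) h1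
        exact ⟨i, by omega, hi0⟩
    · set v := stp P Q n z with hvdef
      rw [not_forall] at hall
      classical
      set j := Nat.find hall with hj
      have hj1 : ¬ (Sp ((stp P Q n)^[j] v) ∧ Q.eval (tn n ((stp P Q n)^[j] v)) ≠ 0) :=
        Nat.find_spec hall
      have hj2 : ∀ i < j, Sp ((stp P Q n)^[i] v) ∧
          Q.eval (tn n ((stp P Q n)^[i] v)) ≠ 0 := fun i hi => by
        by_contra h
        exact Nat.find_min hall hi h
      have horb : ∀ i ≤ j, (fm g n)^[i] (v : OnePoint ℂ) = (((stp P Q n)^[i] v : ℂ) :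
          OnePoint ℂ) := by
        intro i
        induction i with
        | zero => intro _; rfl
        | succ i ih =>
          intro hi
          rw [Function.iterate_succ_apply', ih (by omega), fm_stp hg (hj2 i (by omega)).2,
            Function.iterate_succ_apply']
      apply sinks_of_iterate hcont j
      rw [horb j le_rfl]
      by_cases hQj : Q.eval (tn n ((stp P Q n)^[j] v)) = 0
      · exact hpole _ hQj
      have hsp : ¬ Sp ((stp P Q n)^[j] v) := fun h => hj1 ⟨h, hQj⟩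
      by_cases hs : Seg ((stp P Q n)^[j] v)
      · apply sinks_of_image hcont
        rw [fm_stp hg hQj, ← Function.iterate_succ_apply' (stp P Q n)]
        refine hfar _ fun t ht => ?_
        by_contra hcon
        rw [not_lt] at hcon
        exact hexc ⟨v, hv, j, hj2, hs, hsp, hQj, t, ht, hcon⟩
      · refine hfar _ fun t ht => ?_
        refine lt_of_lt_of_le ?_ (CH.dist_le ht)
        refine hCc.trans_le (hlo _ ⟨?_, hs⟩)
        rcases Nat.eq_zero_or_pos j with h0 | h0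
        · left
          rw [h0]
          exact hv
        · right
          obtain ⟨i, hi⟩ := Nat.exists_eq_add_of_le' h0
          rw [hi, stp_succ]
          refine hYm _ ⟨orbit_XS hv (fun k hk => hj2 k (by omega)) ?_, (hj2 i (by omega)).1⟩ n
          exact (hj2 i (by omega)).1.seg

/-! ### Windows -/

theorem exc_mem {δ : ℝ} (h : Exc P Q δ n) : ∃ x ∈ {x ∈ XS P Q | Seg x ∧ ¬ Sp x},
    Q.eval (tn n x) ≠ 0 ∧ ∃ t : ℝ, |t| ≤ 1 ∧ ‖P.eval (tn n x) / Q.eval (tn n x) - t‖ ≤ δ := by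
  obtain ⟨v, hv, j, h1, h2, h3, h5, t, ht, h4⟩ := h
  refine ⟨_, ⟨orbit_XS hv h1 h2, h2, h3⟩, h5, t, ht, ?_⟩
  rwa [stp_succ] at h4

/-- The points of the circle whose real part is mapped into the segment. -/
def WS (P Q : ℂ[X]) : Set ℂ :=
  {w | ‖w‖ = 1 ∧ Q.eval (w.re : ℂ) ≠ 0 ∧ Seg (P.eval (w.re : ℂ) / Q.eval (w.re : ℂ))}

theorem WS_finite (hZ : FZ P Q) : (WS P Q).Finite := by
  have h1 : (⋃ u ∈ {u : ℂ | Seg u ∧ Q.eval u ≠ 0 ∧ Seg (P.eval u / Q.eval u)},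
      ({⟨u.re, √(1 - u.re ^ 2)⟩, ⟨u.re, -√(1 - u.re ^ 2)⟩} : Set ℂ)).Finite :=
    Set.Finite.biUnion hZ fun u _ => by simp
  refine h1.subset ?_
  rintro w ⟨hw1, hwq, hw2⟩
  have hre : |w.re| ≤ 1 := by rw [← hw1]; exact Complex.abs_re_le_norm w
  refine Set.mem_biUnion (x := (w.re : ℂ)) ⟨⟨w.re, hre, rfl⟩, hwq, hw2⟩ ?_
  have h2 : w.im ^ 2 = 1 - w.re ^ 2 := by
    have h3 := Complex.sq_norm w
    rw [hw1, Complex.normSq_apply] at h3
    nlinarith
  simp only [Complex.ofReal_re, Set.mem_insert_iff, Set.mem_singleton_iff]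
  rw [← h2, Real.sqrt_sq_eq_abs]
  rcases le_total 0 w.im with h4 | h4
  · left
    rw [abs_of_nonneg h4]
  · right
    rw [abs_of_nonpos h4, neg_neg]

theorem no_common (hc : IsCoprime P Q) (y : ℂ) (h1 : P.eval y = 0) (h2 : Q.eval y = 0) :
    False := by
  obtain ⟨a, b, hab⟩ := hc
  have := congrArg (eval y) hab
  simp [h1, h2] at this

theorem exists_near (hc : IsCoprime P Q) {η : ℝ} (hη : 0 < η) : ∃ δ : ℝ, 0 < δ ∧
    ∀ w : ℂ, ‖w‖ = 1 → Q.eval (w.re : ℂ) ≠ 0 →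
      (∃ t : ℝ, |t| ≤ 1 ∧ ‖P.eval (w.re : ℂ) / Q.eval (w.re : ℂ) - t‖ ≤ δ) →
      ∃ w₀ ∈ WS P Q, ‖w - w₀‖ < η := by
  -- the circle times the segment
  set f : ℂ × ℝ → ℝ := fun p => ‖P.eval (p.1.re : ℂ) - p.2 * Q.eval (p.1.re : ℂ)‖ with hf
  have hre : Continuous fun p : ℂ × ℝ => (p.1.re : ℂ) :=
    Complex.continuous_ofReal.comp (Complex.continuous_re.comp continuous_fst)
  have hfc : Continuous f := by
    refine continuous_norm.comp ((P.continuous.comp hre).sub ?_)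
    exact (Complex.continuous_ofReal.comp continuous_snd).mul (Q.continuous.comp hre)
  set K : Set (ℂ × ℝ) := {p | ‖p.1‖ = 1 ∧ |p.2| ≤ 1 ∧ ∀ w₀ ∈ WS P Q, η ≤ ‖p.1 - w₀‖} with hK
  have hKc : IsCompact K := by
    refine ((isCompact_sphere (0 : ℂ) 1).prod (isCompact_Icc (a := (-1 : ℝ)) (b := 1))
      ).of_isClosed_subset ?_ fun p hp => ⟨by simpa using hp.1, abs_le.1 hp.2.1⟩
    have : K = {p | ‖p.1‖ = 1} ∩ ({p | |p.2| ≤ 1} ∩ ⋂ w₀ ∈ WS P Q, {p | η ≤ ‖p.1 - w₀‖}) := by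
      ext p
      simp [hK]
    rw [this]
    refine (isClosed_eq (continuous_norm.comp continuous_fst) continuous_const).inter
      ((isClosed_le (continuous_abs.comp continuous_snd) continuous_const).inter ?_)
    exact isClosed_biInter fun w₀ _ => isClosed_le continuous_const
      (continuous_norm.comp (continuous_fst.sub continuous_const))
  have hpos : ∀ p ∈ K, 0 < f p := by
    intro p hp
    rw [hf]
    apply norm_pos_iff.2
    intro h0
    have hQ : Q.eval (p.1.re : ℂ) ≠ 0 := by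
      intro hq
      rw [hq, mul_zero, sub_zero] at h0
      exact no_common hc _ h0 hq
    have h1 : P.eval (p.1.re : ℂ) / Q.eval (p.1.re : ℂ) = p.2 := by
      rw [div_eq_iff hQ]
      exact sub_eq_zero.1 h0
    have := hp.2.2 p.1 ⟨hp.1, hQ, ⟨p.2, hp.2.1, h1⟩⟩
    rw [sub_self, norm_zero] at this
    linarith
  have hm : ∃ m : ℝ, 0 < m ∧ ∀ w ∈ K, m ≤ f w := by
    rcases K.eq_empty_or_nonempty with h | h
    · exact ⟨1, one_pos, by simp [h]⟩
    · obtain ⟨a, ha, hmin⟩ := hKc.exists_isMinOn h hfc.continuousOn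
      exact ⟨f a, hpos a ha, fun w hw => hmin hw⟩
  obtain ⟨m, hm0, hm⟩ := hm
  obtain ⟨B, hB⟩ : ∃ B : ℝ, ∀ w : ℂ, ‖w‖ = 1 → ‖Q.eval (w.re : ℂ)‖ ≤ B := by
    have h1 : Continuous fun w : ℂ => Q.eval (w.re : ℂ) :=
      Q.continuous.comp (Complex.continuous_ofReal.comp Complex.continuous_re)
    obtain ⟨B, hB⟩ := ((isCompact_sphere (0 : ℂ) 1).image h1).isBounded.exists_norm_le
    exact ⟨B, fun w hw => hB _ ⟨w, by simpa using hw, rfl⟩⟩
  refine ⟨m / (2 * (|B| + 1)), by positivity, fun w hw hq ⟨t, ht, h⟩ => ?_⟩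
  by_contra hcon
  push Not at hcon
  have h1 := hm (w, t) ⟨hw, ht, hcon⟩
  have h2 : f (w, t) = ‖P.eval (w.re : ℂ) / Q.eval (w.re : ℂ) - t‖ * ‖Q.eval (w.re : ℂ)‖ := by
    rw [hf, ← norm_mul, sub_mul, div_mul_cancel₀ _ hq]
  have h3 : f (w, t) ≤ m / (2 * (|B| + 1)) * (|B| + 1) := by
    rw [h2]
    have h4 : ‖Q.eval (w.re : ℂ)‖ ≤ |B| + 1 := (hB w hw).trans ((le_abs_self B).trans (by linarith))
    gcongr
  have h5 : m / (2 * (|B| + 1)) * (|B| + 1) = m / 2 := by field_simp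
  rw [h5] at h3
  linarith

/-- In long windows there are boundedly many exceptional exponents. -/
theorem window (hc : IsCoprime P Q) (hD : 0 < max P.natDegree Q.natDegree) (hZ : FZ P Q) :
    ∃ K : ℕ, ∀ (C : ℝ) (L : ℕ), ∃ N₀ : ℕ, ∀ N, N₀ ≤ N →
      ({n : ℕ | Exc P Q (C / n) n} ∩ Set.Ico N (N + L)).ncard ≤ K := by
  classical
  have hV : ({x ∈ XS P Q | Seg x ∧ ¬ Sp x}).Finite :=
    (XS_finite hc hD hZ).subset (Set.sep_subset _ _)
  have hW := WS_finite hZ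
  set J : Finset (ℂ × ℂ) := hV.toFinset ×ˢ hW.toFinset with hJ
  refine ⟨J.card, fun C L => ?_⟩
  have hom : ∀ x : ℂ, ∃ ω : ℂ, x ∈ {x ∈ XS P Q | Seg x ∧ ¬ Sp x} → ‖ω‖ = 1 ∧
      (∀ n : ℕ, tn n x = ((ω ^ n).re : ℂ)) ∧ ∀ k : ℕ, 0 < k → ω ^ k ≠ 1 := by
    intro x
    by_cases hx : x ∈ {x ∈ XS P Q | Seg x ∧ ¬ Sp x}
    · obtain ⟨ω, h⟩ := CH.exists_omega hx.2.1 hx.2.2
      exact ⟨ω, fun _ => h⟩
    · exact ⟨0, fun h => absurd h hx⟩
  choose ω hω using hom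
  obtain ⟨η, hη, hgap⟩ := fin_lo ((hV.prod (Set.finite_Ico 1 (L + 1))))
    (fun p : ℂ × ℕ => ‖(ω p.1) ^ p.2 - 1‖) (fun p hp => norm_pos_iff.2 (sub_ne_zero.2
      ((hω p.1 hp.1).2.2 p.2 hp.2.1)))
  obtain ⟨m, hm, hmin⟩ := exists_near hc (half_pos hη)
  have hlim : Tendsto (fun n : ℕ => C / (n : ℝ)) atTop (𝓝 0) :=
    tendsto_const_div_atTop_nhds_zero_nat C
  obtain ⟨N₀, hN₀⟩ := eventually_atTop.1 (hlim.eventually (gt_mem_nhds hm))
  refine ⟨N₀, fun N hN => ?_⟩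
  have hkey : ∀ n ∈ {n : ℕ | Exc P Q (C / n) n} ∩ Set.Ico N (N + L),
      ∃ j ∈ J, ‖(ω j.1) ^ n - j.2‖ < η / 2 := by
    rintro n ⟨h1, h2⟩
    obtain ⟨x, hx, hq, t, ht, h3⟩ := exc_mem h1
    have h4 := hN₀ n (hN.trans h2.1)
    have hx' := hω x hx
    rw [hx'.2.1 n] at h3 hq
    obtain ⟨w, hw, hd⟩ := hmin ((ω x) ^ n) (by rw [norm_pow, hx'.1, one_pow]) hq
      ⟨t, ht, h3.trans h4.le⟩
    exact ⟨(x, w), Finset.mem_product.2 ⟨hV.mem_toFinset.2 hx, hW.mem_toFinset.2 hw⟩, hd⟩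
  choose! g hg1 hg2 using hkey
  rw [← Set.ncard_coe_finset]
  refine Set.ncard_le_ncard_of_injOn g (fun n hn => hg1 n hn) ?_ (Finset.finite_toSet _)
  have key : ∀ a b : ℕ, a ∈ {n : ℕ | Exc P Q (C / n) n} ∩ Set.Ico N (N + L) →
      b ∈ {n : ℕ | Exc P Q (C / n) n} ∩ Set.Ico N (N + L) → g a = g b → ¬ a < b := by
    intro a b ha hb hab hlt
    have hx : (g a).1 ∈ {x ∈ XS P Q | Seg x ∧ ¬ Sp x} :=
      hV.mem_toFinset.1 (Finset.mem_product.1 (hg1 a ha)).1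
    have h1 := hg2 a ha
    have h2 := hg2 b hb
    rw [← hab] at h2
    obtain ⟨d, rfl⟩ := Nat.exists_eq_add_of_lt hlt
    have h3 := hgap ((g a).1, d + 1) ⟨hx, by
      have := ha.2.1
      have := hb.2.2
      simp only [Set.mem_Ico]
      omega⟩
    simp only [] at h3
    have hn := (hω _ hx).1
    have h4 : ‖(ω (g a).1) ^ (a + d + 1) - (ω (g a).1) ^ a‖ = ‖(ω (g a).1) ^ (d + 1) - 1‖ := by
      have : (ω (g a).1) ^ (a + d + 1) - (ω (g a).1) ^ a =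
          (ω (g a).1) ^ a * ((ω (g a).1) ^ (d + 1) - 1) := by ring
      rw [this, norm_mul, norm_pow, hn, one_pow, one_mul]
    have h5 : ‖(ω (g a).1) ^ (a + d + 1) - (ω (g a).1) ^ a‖ ≤
        ‖(ω (g a).1) ^ (a + d + 1) - (g a).2‖ + ‖(ω (g a).1) ^ a - (g a).2‖ := by
      have := norm_sub_le ((ω (g a).1) ^ (a + d + 1) - (g a).2) ((ω (g a).1) ^ a - (g a).2)
      simpa using this
    linarith
  intro a ha b hb hab
  rcases lt_trichotomy a b with h | h | h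
  · exact absurd h (key a b ha hb hab)
  · exact h
  · exact absurd h (key b a hb ha hab.symm)

/-- The zero-one law. -/
theorem law (hg : IsRat g P Q) (hD : 0 < max P.natDegree Q.natDegree)
    (hρ : ∀ t : ℝ, |t| ≤ 1 → g ∞ ≠ ((t : ℂ) : OnePoint ℂ)) (hZ : FZ P Q) :
    ∃ M K n₀ : ℕ, ∃ C : ℝ, 0 < M ∧
      (∀ n m : ℕ, n ≡ m [MOD M] → (Res P Q n ↔ Res P Q m)) ∧
      (∀ n, n₀ ≤ n → Res P Q n → ¬ Hyp (num P n) (num Q n)) ∧
      (∀ n, n₀ ≤ n → ¬ Res P Q n → ¬ Exc P Q (C / n) n → Hyp (num P n) (num Q n)) ∧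
      (∀ L : ℕ, ∃ N₀ : ℕ, ∀ N, N₀ ≤ N →
        ({n : ℕ | Exc P Q (C / n) n} ∩ Set.Ico N (N + L)).ncard ≤ K) ∧
      Tendsto (fun N : ℕ => (({n : ℕ | Hyp (num P n) (num Q n)} ∩ Set.Iio N).ncard : ℝ) / N)
        atTop (𝓝 (({a | a < M ∧ ¬ Res P Q a}.ncard : ℝ) / M)) := by
  obtain ⟨M, hM0, hM⟩ := CH.exists_period (X := {x ∈ XS P Q | Sp x})
    ((XS_finite hg.cop hD hZ).subset (Set.sep_subset _ _)) (fun x hx => hx.2)
  obtain ⟨n₁, h1⟩ := not_hyp hg hD hZ hM0 hM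
  obtain ⟨C, -, n₂, h2⟩ := hyp hg hD hρ hZ hM0 hM
  obtain ⟨K, h3⟩ := window hg.cop hD hZ
  have hmod : ∀ n m : ℕ, n ≡ m [MOD M] → (Res P Q n ↔ Res P Q m) := fun n m h =>
    ⟨res_congr hM h, res_congr hM h.symm⟩
  refine ⟨M, K, max n₁ n₂, C, hM0, hmod, fun n hn => h1 n (le_of_max_le_left hn),
    fun n hn => h2 n (le_of_max_le_right hn), h3 C, ?_⟩
  refine CH.density_periodic hM0 (p := fun n => ¬ Res P Q n) (S := {n : ℕ | Exc P Q (C / n) n})
    (n₀ := max n₁ n₂) (fun n m h => not_congr (hmod n m h)) (CH.density_of_window (h3 C)) ?_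
  intro n hn hS
  exact ⟨fun h5 h6 => h1 n (le_of_max_le_left hn) h6 h5,
    fun h5 => h2 n (le_of_max_le_right hn) h5 hS⟩

end Pool.Agent.Q189.CR
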