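import Pool.Agent.Q189.CR.D
import Pool.Agent.Q189.CH.E

/-!
# The maps `R ∘ T_n`: consequences of the law and an example
-/

set_option autoImplicit false

open Set Filter Topology Polynomial
open scoped OnePoint

namespace Pool.Agent.Q189.CR

open Pool.Agent.H762R2.Rt Pool.Agent.Helper114.Herman Pool.Agent.Helper114.Konig
open Pool.Agent.Q189.CH (tn Seg Sp SegS fin_lo)

variable {P Q : ℂ[X]} {n : ℕ}

/-- The value at infinity is off the segment. -/
def Off (P Q : ℂ[X]) : Prop :=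
  Q.coeff (max P.natDegree Q.natDegree) = 0 ∨
    ¬ Seg (P.coeff (max P.natDegree Q.natDegree) / Q.coeff (max P.natDegree Q.natDegree))

theorem Q_ne (hc : IsCoprime P Q) (hD : 0 < max P.natDegree Q.natDegree) : Q ≠ 0 := by
  rintro rfl
  have h2 : IsUnit P := isCoprime_zero_right.1 hc
  have h3 : P.natDegree = 0 := natDegree_eq_zero_of_isUnit h2
  rw [h3] at hD
  simp at hD

theorem law' (hc : IsCoprime P Q) (hD : 0 < max P.natDegree Q.natDegree) (ho : Off P Q)
    (hZ : FZ P Q) :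
    ∃ M K n₀ : ℕ, ∃ C : ℝ, 0 < M ∧
      (∀ n m : ℕ, n ≡ m [MOD M] → (Res P Q n ↔ Res P Q m)) ∧
      (∀ n, n₀ ≤ n → Res P Q n → ¬ Hyp (num P n) (num Q n)) ∧
      (∀ n, n₀ ≤ n → ¬ Res P Q n → ¬ Exc P Q (C / n) n → Hyp (num P n) (num Q n)) ∧
      (∀ L : ℕ, ∃ N₀ : ℕ, ∀ N, N₀ ≤ N →
        ({n : ℕ | Exc P Q (C / n) n} ∩ Set.Ico N (N + L)).ncard ≤ K) ∧
      Tendsto (fun N : ℕ => (({n : ℕ | Hyp (num P n) (num Q n)} ∩ Set.Iio N).ncard : ℝ) / N)
        atTop (𝓝 (({a | a < M ∧ ¬ Res P Q a}.ncard : ℝ) / M)) := by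
  obtain ⟨g, hg, -⟩ := exists_isRat hc (Q_ne hc hD)
  refine law hg hD ?_ hZ
  intro t ht he
  have h1 := rat_formula hg rfl hD (u := 1) (v := 0) (Or.inl one_ne_zero)
  rw [pr_zero, hom_zero, hom_zero, one_pow, mul_one, mul_one, he] at h1
  rcases ho with h2 | h2
  · rw [h2, pr_zero] at h1
    exact OnePoint.coe_ne_infty _ h1
  · by_cases h3 : Q.coeff (max P.natDegree Q.natDegree) = 0
    · rw [h3, pr_zero] at h1
      exact OnePoint.coe_ne_infty _ h1
    · rw [pr_ne h3, OnePoint.coe_eq_coe] at h1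
      exact h2 ⟨t, ht, h1.symm⟩

theorem density (hc : IsCoprime P Q) (hD : 0 < max P.natDegree Q.natDegree) (ho : Off P Q)
    (hZ : FZ P Q) : ∃ q : ℚ, Tendsto (fun N : ℕ => (({n : ℕ | Hyp (num P n) (num Q n)} ∩
      Set.Iio N).ncard : ℝ) / N) atTop (𝓝 (q : ℝ)) := by
  obtain ⟨M, K, n₀, C, hM, -, -, -, -, h⟩ := law' hc hD ho hZ
  refine ⟨(({a | a < M ∧ ¬ Res P Q a}.ncard : ℚ)) / M, ?_⟩
  push_cast
  exact h

theorem density_one (hc : IsCoprime P Q) (hD : 0 < max P.natDegree Q.natDegree) (ho : Off P Q)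
    (hZ : FZ P Q) (hv : ∀ v : ℂ, CV P Q v → ¬ Sp v) :
    Tendsto (fun N : ℕ => (({n : ℕ | Hyp (num P n) (num Q n)} ∩
      Set.Iio N).ncard : ℝ) / N) atTop (𝓝 1) := by
  obtain ⟨M, K, n₀, C, hM, -, -, -, -, h⟩ := law' hc hD ho hZ
  have h1 : ∀ n, ¬ Res P Q n := by
    rintro n ⟨v, hv1, hv2⟩
    exact hv v hv1 (hv2 0).1
  have h2 : {a : ℕ | a < M ∧ ¬ Res P Q a} = ↑(Finset.range M) := by
    ext a; simp [h1]
  rw [h2, Set.ncard_coe_finset, Finset.card_range, div_self (by exact_mod_cast hM.ne')] at h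
  exact h

/-- A fraction which is not real takes real values at finitely many real points. -/
theorem FZ_of (h : P * Q.map (starRingEnd ℂ) ≠ P.map (starRingEnd ℂ) * Q) : FZ P Q := by
  set S : ℂ[X] := P * Q.map (starRingEnd ℂ) - P.map (starRingEnd ℂ) * Q with hS
  have hS0 : S ≠ 0 := sub_ne_zero.2 h
  have h2 := S.roots.toFinset.finite_toSet
  refine h2.subset ?_
  rintro _ ⟨⟨t, -, rfl⟩, hq, s, -, hs⟩
  simp only [Finset.mem_coe, Multiset.mem_toFinset, mem_roots', ne_eq]
  refine ⟨hS0, ?_⟩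
  show S.eval (t : ℂ) = 0
  have h3 : ∀ A : ℂ[X], (A.map (starRingEnd ℂ)).eval (t : ℂ) = (starRingEnd ℂ) (A.eval (t : ℂ)) := by
    intro A
    have h4 : ((t : ℂ)) = (starRingEnd ℂ) (t : ℂ) := (Complex.conj_ofReal t).symm
    conv_lhs => rw [h4]
    rw [eval_map, eval₂_hom]
  have h5 : P.eval (t : ℂ) = s * Q.eval (t : ℂ) := by rw [← hs, div_mul_cancel₀ _ hq]
  rw [hS, eval_sub, eval_mul, eval_mul, h3, h3, h5, map_mul, Complex.conj_ofReal]
  ring

/-! ### An example -/

/-- `(1 + 3 i) / 2`, the value at infinity -/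
noncomputable def al : ℂ := (1 + 3 * Complex.I) / 2
noncomputable def be : ℂ := (1 - 3 * Complex.I) / 2
/-- numerator -/
noncomputable def exP : ℂ[X] := C al * X + C be
/-- denominator -/
noncomputable def exQ : ℂ[X] := X - C 2

theorem exP_eval (x : ℂ) : exP.eval x = al * x + be := by simp [exP]
theorem exQ_eval (x : ℂ) : exQ.eval x = x - 2 := by simp [exQ]

theorem al_ne : al ≠ 0 := by
  intro h
  have := congrArg Complex.re h
  norm_num [al] at this

theorem ab_ne : 2 * al + be ≠ 0 := by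
  intro h
  have := congrArg Complex.re h
  norm_num [al, be] at this

theorem exP_natDegree : exP.natDegree = 1 := natDegree_linear al_ne
theorem exQ_natDegree : exQ.natDegree = 1 := natDegree_X_sub_C 2

theorem ex_max : max exP.natDegree exQ.natDegree = 1 := by
  rw [exP_natDegree, exQ_natDegree, max_self]

theorem ex_cop : IsCoprime exP exQ := by
  refine ⟨C (2 * al + be)⁻¹, -C (al * (2 * al + be)⁻¹), ?_⟩
  have h : exP = C al * exQ + C (2 * al + be) := by
    unfold exP exQ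
    rw [C_add, C_mul]
    ring
  rw [h, C_mul, mul_add, ← C_mul, inv_mul_cancel₀ ab_ne, C_1]
  ring

theorem ex_wro : wro exP exQ = C (-(2 * al + be)) := by
  unfold wro exP exQ
  simp only [derivative_add, derivative_mul, derivative_C, derivative_X, derivative_sub, zero_mul,
    zero_add, add_zero, mul_one, sub_zero, C_neg, C_add, C_mul]
  ring

theorem ex_off : Off exP exQ := by
  right
  rw [ex_max]
  have h1 : exP.coeff 1 = al := by simp [exP]
  have h2 : exQ.coeff 1 = 1 := by simp [exQ, coeff_X]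
  rw [h1, h2, div_one]
  rintro ⟨t, -, ht⟩
  have := congrArg Complex.im ht
  norm_num [al] at this

theorem ex_one : exP.eval 1 / exQ.eval 1 = -1 := by
  rw [exP_eval, exQ_eval]
  simp only [al, be]
  ring

theorem ex_neg_one : exP.eval (-1) / exQ.eval (-1) = Complex.I := by
  rw [exP_eval, exQ_eval]
  simp only [al, be]
  ring

theorem ex_FZ : FZ exP exQ := by
  apply FZ_of
  intro h
  have h1 := congrArg (eval (0 : ℂ)) h
  simp only [exP, exQ, al, be, eval_mul, Polynomial.map_add, Polynomial.map_mul,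
    Polynomial.map_sub, map_C, map_X, eval_add, eval_sub, eval_C, eval_X, mul_zero, zero_add,
    zero_sub, map_neg, map_div₀, map_sub, map_one, map_mul, map_ofNat, Complex.conj_I] at h1
  have h2 := congrArg Complex.im h1
  norm_num at h2

theorem ex_res (n : ℕ) : Res exP exQ n ↔ Even n := by
  have hstep : ∀ x : ℂ, stp exP exQ n x = exP.eval (tn n x) / exQ.eval (tn n x) := fun x => rfl
  constructor
  · rintro ⟨v, hv, hj⟩
    by_contra hodd
    rw [Nat.not_even_iff_odd] at hodd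
    have h0 := (hj 0).1.seg
    have h1 := (hj 1).1.seg
    rw [Function.iterate_one, hstep] at h1
    rcases hv with ⟨-, h⟩ | ⟨-, h⟩ | ⟨y, hy, -⟩
    · rw [ex_one] at h
      rw [h, CH.tn_neg_one, hodd.neg_one_pow, ex_neg_one] at h1
      exact CH.not_seg_I h1
    · rw [ex_neg_one] at h
      rw [h] at h0
      exact CH.not_seg_I h0
    · rw [ex_wro, eval_C] at hy
      exact ab_ne (neg_eq_zero.1 hy)
  · intro heven
    have hfix : ∀ j : ℕ, (stp exP exQ n)^[j] (-1) = -1 := by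
      intro j
      refine Function.iterate_fixed ?_ j
      rw [hstep, CH.tn_neg_one, heven.neg_one_pow, ex_one]
    have hQ1 : exQ.eval 1 ≠ 0 := by rw [exQ_eval]; norm_num
    refine ⟨-1, Or.inl ⟨hQ1, ex_one.symm⟩, fun j => ?_⟩
    rw [hfix, CH.tn_neg_one, heven.neg_one_pow]
    refine ⟨⟨1, by simp⟩, hQ1, ?_, fun _ => by norm_num⟩
    rw [ex_wro, eval_C]
    exact neg_ne_zero.2 ab_ne

theorem ex_density :
    Tendsto (fun N : ℕ => (({n : ℕ | Hyp (num exP n) (num exQ n)} ∩
      Set.Iio N).ncard : ℝ) / N) atTop (𝓝 (1 / 2)) := by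
  obtain ⟨M, K, n₀, C, hM, h1, h2, h3, h4, -⟩ := law' ex_cop (by rw [ex_max]; norm_num) ex_off ex_FZ
  have h5 := CH.density_periodic (M := 2) two_pos (p := fun n => ¬ Even n)
    (H := {n : ℕ | Hyp (num exP n) (num exQ n)})
    (S := {n : ℕ | Exc exP exQ (C / n) n}) (n₀ := n₀)
    (fun n m h => by
      rw [Nat.even_iff, Nat.even_iff]
      have : n % 2 = m % 2 := h
      rw [this]) (CH.density_of_window h4) (by
      intro n hn hS
      constructor
      · intro h6 h7
        exact h2 n hn ((ex_res n).2 h7) h6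
      · intro h6
        exact h3 n hn (fun h7 => h6 ((ex_res n).1 h7)) hS)
  have h6 : {a : ℕ | a < 2 ∧ ¬ Even a} = {1} := by
    ext a
    simp only [Set.mem_ofPred_eq, Set.mem_singleton_iff]
    constructor
    · rintro ⟨ha, hb⟩
      interval_cases a
      · simp at hb
      · rfl
    · rintro rfl
      exact ⟨by norm_num, by decide⟩
  rw [h6, Set.ncard_singleton] at h5
  simpa using h5

end Pool.Agent.Q189.CR
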